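import Pool.Agent.H42.UP.Defs

/-!
# A planar straight-line drawing of the infinite ternary stacked triangulation
-/

namespace Pool.Agent.H42.UP

/-- Addresses of nested triangles; the head is the last step. -/
abbrev Adr := List (Fin 3)

/-- Vertices: three outer corners and one centre for every address. -/
abbrev BV := Fin 3 ⊕ Adr

/-- The corners of the triangle with a given address. -/
def corners : Adr → Fin 3 → BV
  | [] => Sum.inl
  | i :: π => Function.update (corners π) i (Sum.inr π)

/-- The positions of the corners. -/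
noncomputable def pc : Adr → Fin 3 → ℝ × ℝ
  | [] => ![(0, 0), (1, 0), (0, 1)]
  | i :: π => Function.update (pc π) i ((1 / 3 : ℝ) • pc π 0 + (1 / 3 : ℝ) • pc π 1 +
      (1 / 3 : ℝ) • pc π 2)

/-- The centre of a triangle. -/
noncomputable def cen (π : Adr) : ℝ × ℝ :=
  (1 / 3 : ℝ) • pc π 0 + (1 / 3 : ℝ) • pc π 1 + (1 / 3 : ℝ) • pc π 2

/-- The position of a vertex. -/
noncomputable def bpos : BV → ℝ × ℝ
  | Sum.inl i => pc [] i
  | Sum.inr π => cen π

/-- Barycentric coordinates with respect to a triangle. -/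
def lam : Adr → ℝ × ℝ → Fin 3 → ℝ
  | [], p => ![1 - p.1 - p.2, p.1, p.2]
  | i :: π, p => fun k => if k = i then 3 * lam π p i else lam π p k - lam π p i

theorem pc_eq (π : Adr) (k : Fin 3) : pc π k = bpos (corners π k) := by
  induction π with
  | nil => rfl
  | cons i π ih =>
    rw [pc, corners]
    by_cases h : k = i
    · subst h
      rw [Function.update_self, Function.update_self]
      rfl
    · rw [Function.update_of_ne h, Function.update_of_ne h, ih]

theorem lam_affine (π : Adr) (α β γ : ℝ) (h : α + β + γ = 1) (a b c : ℝ × ℝ) (k : Fin 3) :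
    lam π (α • a + β • b + γ • c) k = α * lam π a k + β * lam π b k + γ * lam π c k := by
  induction π generalizing k with
  | nil =>
    fin_cases k
    · simp [lam]; linear_combination -h
    · simp [lam]
    · simp [lam]
  | cons i π ih =>
    simp only [lam]
    split_ifs
    · rw [ih]; ring
    · rw [ih, ih]; ring

theorem lam_seg (π : Adr) (a b : ℝ) (h : a + b = 1) (p q : ℝ × ℝ) (k : Fin 3) :
    lam π (a • p + b • q) k = a * lam π p k + b * lam π q k := by
  have := lam_affine π a b 0 (by linarith) p q q k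
  simpa using this

theorem fin3 (j : Fin 3) : j = 0 ∨ j = 1 ∨ j = 2 := by
  revert j; decide

theorem avg (j : Fin 3) : (1 / 3 : ℝ) * (if j = 0 then 1 else 0) +
    (1 / 3 : ℝ) * (if j = 1 then 1 else 0) + (1 / 3 : ℝ) * (if j = 2 then 1 else 0) = 1 / 3 := by
  rcases fin3 j with h | h | h <;> subst h <;> simp

theorem lam_pc (π : Adr) (k j : Fin 3) : lam π (pc π k) j = if j = k then 1 else 0 := by
  induction π generalizing k j with
  | nil =>
    fin_cases k <;> fin_cases j <;> simp [lam, pc]
  | cons i π ih =>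
    have hc : ∀ j, lam π ((1 / 3 : ℝ) • pc π 0 + (1 / 3 : ℝ) • pc π 1 +
      (1 / 3 : ℝ) • pc π 2) j = 1 / 3 := by
      intro j
      rw [lam_affine _ _ _ _ (by norm_num), ih, ih, ih]
      exact avg j
    rw [pc]
    by_cases hk : k = i
    · subst hk
      rw [Function.update_self]
      simp only [lam]
      rw [hc, hc]
      split_ifs <;> norm_num
    · rw [Function.update_of_ne hk]
      simp only [lam]
      rw [ih, ih]
      have hk' : ¬ i = k := fun h => hk h.symm
      rw [if_neg hk']
      by_cases hj : j = i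
      · subst hj
        rw [if_pos rfl, if_neg hk', mul_zero]
      · rw [if_neg hj, sub_zero]

theorem lam_cen (π : Adr) (j : Fin 3) : lam π (cen π) j = 1 / 3 := by
  rw [cen, lam_affine _ _ _ _ (by norm_num), lam_pc, lam_pc, lam_pc]
  exact avg j

theorem lam_inj (π : Adr) {p q : ℝ × ℝ} (h : ∀ k, lam π p k = lam π q k) : p = q := by
  induction π with
  | nil =>
    have h1 := h 1
    have h2 := h 2
    simp [lam] at h1 h2
    exact Prod.ext h1 h2
  | cons i π ih =>
    apply ih
    have hi := h i
    simp only [lam, if_true] at hi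
    intro k
    by_cases hk : k = i
    · subst hk; linarith
    · have := h k
      simp only [lam, if_neg hk] at this
      linarith

/-- The open triangle. -/
def Op (π : Adr) (p : ℝ × ℝ) : Prop := ∀ k, 0 < lam π p k

/-- The closed triangle. -/
def Cl (π : Adr) (p : ℝ × ℝ) : Prop := ∀ k, 0 ≤ lam π p k

theorem Op.parent {i : Fin 3} {π : Adr} {p : ℝ × ℝ} (h : Op (i :: π) p) : Op π p := by
  have hi := h i
  simp only [lam, if_true] at hi
  intro k
  by_cases hk : k = i
  · subst hk; linarith
  · have := h k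
    simp only [lam, if_neg hk] at this
    linarith

theorem Cl.parent {i : Fin 3} {π : Adr} {p : ℝ × ℝ} (h : Cl (i :: π) p) : Cl π p := by
  have hi := h i
  simp only [lam, if_true] at hi
  intro k
  by_cases hk : k = i
  · subst hk; linarith
  · have := h k
    simp only [lam, if_neg hk] at this
    linarith

theorem Op.anc {α π : Adr} {p : ℝ × ℝ} (h : Op (α ++ π) p) : Op π p := by
  induction α with
  | nil => exact h
  | cons i α ih => exact ih (Op.parent h)

theorem Cl.anc {α π : Adr} {p : ℝ × ℝ} (h : Cl (α ++ π) p) : Cl π p := by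
  induction α with
  | nil => exact h
  | cons i α ih => exact ih (Cl.parent h)

theorem Op.root {π : Adr} {p : ℝ × ℝ} (h : Op π p) : Op [] p := by
  have : Op (π ++ []) p := by rw [List.append_nil]; exact h
  exact this.anc

theorem sibling {i j : Fin 3} (hij : i ≠ j) {π : Adr} {p : ℝ × ℝ} (h : Op (i :: π) p)
    (h' : Cl (j :: π) p) : False := by
  have h1 := h j
  have h2 := h' i
  simp only [lam, if_neg hij.symm] at h1
  simp only [lam, if_neg hij] at h2
  linarith

theorem op_cen (π : Adr) : Op π (cen π) := fun k => by rw [lam_cen]; norm_num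

theorem not_op_pc (π : Adr) (k : Fin 3) : ¬ Op π (pc π k) := by
  intro h
  obtain ⟨j, hj⟩ : ∃ j : Fin 3, j ≠ k := exists_ne k
  have := h j
  rw [lam_pc, if_neg hj] at this
  exact lt_irrefl _ this

theorem not_op_cen (i : Fin 3) (π : Adr) : ¬ Op (i :: π) (cen π) := by
  have := not_op_pc (i :: π) i
  rwa [pc, Function.update_self] at this

theorem op_of_seg {π : Adr} {k : Fin 3} {p : ℝ × ℝ} (h : p ∈ segment ℝ (cen π) (pc π k))
    (hne : p ≠ pc π k) : Op π p := by
  obtain ⟨a, b, ha, hb, hab, rfl⟩ := h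
  have ha' : 0 < a := by
    rcases ha.lt_or_eq with h | h
    · exact h
    · exfalso; apply hne
      have : b = 1 := by linarith
      rw [← h, this]; simp
  intro j
  rw [lam_seg _ _ _ hab, lam_cen, lam_pc]
  split_ifs <;> nlinarith

theorem cl_of_seg {π : Adr} {k : Fin 3} {p : ℝ × ℝ} (h : p ∈ segment ℝ (cen π) (pc π k)) :
    Cl π p := by
  obtain ⟨a, b, ha, hb, hab, rfl⟩ := h
  intro j
  rw [lam_seg _ _ _ hab, lam_cen, lam_pc]
  split_ifs <;> nlinarith

theorem third (i k : Fin 3) : ∃ j : Fin 3, j ≠ i ∧ j ≠ k := by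
  revert i k; decide

theorem not_op_child_of_seg {π : Adr} {k : Fin 3} {p : ℝ × ℝ}
    (h : p ∈ segment ℝ (cen π) (pc π k)) (i : Fin 3) : ¬ Op (i :: π) p := by
  intro ho
  obtain ⟨j, hji, hjk⟩ := third i k
  have h1 := ho j
  simp only [lam, if_neg hji] at h1
  obtain ⟨a, b, ha, hb, hab, rfl⟩ := h
  rw [lam_seg _ _ _ hab, lam_seg _ _ _ hab, lam_cen, lam_cen, lam_pc, lam_pc, if_neg hjk] at h1
  split_ifs at h1 <;> nlinarith

theorem trichotomy_aux (a b : Adr) : a = b ∨ (∃ i α, b = a ++ i :: α) ∨ (∃ i α, a = b ++ i :: α) ∨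
    ∃ μ i j α β, i ≠ j ∧ a = μ ++ i :: α ∧ b = μ ++ j :: β := by
  induction a generalizing b with
  | nil =>
    cases b with
    | nil => exact Or.inl rfl
    | cons j b => exact Or.inr (Or.inl ⟨j, b, rfl⟩)
  | cons i a ih =>
    cases b with
    | nil => exact Or.inr (Or.inr (Or.inl ⟨i, a, rfl⟩))
    | cons j b =>
      by_cases hij : i = j
      · subst hij
        rcases ih b with h | ⟨k, α, h⟩ | ⟨k, α, h⟩ | ⟨μ, k, l, α, β, hkl, h1, h2⟩
        · left; rw [h]
        · right; left; exact ⟨k, α, by rw [h]; rfl⟩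
        · right; right; left; exact ⟨k, α, by rw [h]; rfl⟩
        · right; right; right
          exact ⟨i :: μ, k, l, α, β, hkl, by rw [h1]; rfl, by rw [h2]; rfl⟩
      · right; right; right
        exact ⟨[], i, j, a, b, hij, rfl, rfl⟩

theorem trichotomy (π ρ : Adr) : π = ρ ∨ (∃ α i, ρ = α ++ i :: π) ∨ (∃ α i, π = α ++ i :: ρ) ∨
    ∃ μ i j α β, i ≠ j ∧ π = α ++ i :: μ ∧ ρ = β ++ j :: μ := by
  rcases trichotomy_aux π.reverse ρ.reverse with h | ⟨i, α, h⟩ | ⟨i, α, h⟩ |
    ⟨μ, i, j, α, β, hij, h1, h2⟩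
  · exact Or.inl (List.reverse_injective h)
  · right; left
    refine ⟨α.reverse, i, ?_⟩
    have := congrArg List.reverse h
    simpa using this
  · right; right; left
    refine ⟨α.reverse, i, ?_⟩
    have := congrArg List.reverse h
    simpa using this
  · right; right; right
    refine ⟨μ.reverse, i, j, α.reverse, β.reverse, hij, ?_, ?_⟩
    · have := congrArg List.reverse h1
      simpa using this
    · have := congrArg List.reverse h2
      simpa using this

theorem op_disjoint {π ρ : Adr} (hne : π ≠ ρ) (p : ℝ × ℝ) (h : Op π p) (h' : Op ρ p)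
    (hp : p = cen ρ) : ∃ α i, ρ = α ++ i :: π := by
  rcases trichotomy π ρ with e | e | ⟨α, i, e⟩ | ⟨μ, i, j, α, β, hij, h1, h2⟩
  · exact absurd e hne
  · exact e
  · exfalso
    rw [e] at h
    rw [hp] at h
    exact not_op_cen i ρ h.anc
  · exfalso
    rw [h1] at h
    rw [h2] at h'
    exact sibling hij h.anc (fun k => (h'.anc k).le)

theorem bpos_injective : Function.Injective bpos := by
  have key : ∀ π ρ : Adr, cen π = cen ρ → π = ρ := by
    intro π ρ h
    by_contra hne
    rcases trichotomy π ρ with e | ⟨α, i, e⟩ | ⟨α, i, e⟩ | ⟨μ, i, j, α, β, hij, h1, h2⟩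
    · exact hne e
    · have h1 := op_cen ρ
      rw [e] at h1
      have h2 := h1.anc
      rw [← e, ← h] at h2
      exact not_op_cen i π h2
    · have h1 := op_cen π
      rw [e] at h1
      have h2 := h1.anc
      rw [← e, h] at h2
      exact not_op_cen i ρ h2
    · have k1 := op_cen π
      have k2 := op_cen ρ
      rw [← h] at k2
      have k3 : Op (i :: μ) (cen π) := by
        have := k1; rw [h1] at this ⊢; exact this.anc
      have k4 : Op (j :: μ) (cen π) := by
        have := k2; rw [h2] at this; exact this.anc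
      exact sibling hij k3 (fun k => (k4 k).le)
  intro x y hxy
  rcases x with i | π <;> rcases y with j | ρ
  · congr 1
    have h1 : lam [] (pc [] i) i = lam [] (pc [] j) i := by
      have : pc [] i = pc [] j := hxy
      rw [this]
    rw [lam_pc, lam_pc, if_pos rfl] at h1
    by_contra hne
    rw [if_neg hne] at h1
    norm_num at h1
  · exfalso
    have h1 : pc [] i = cen ρ := hxy
    have h2 := (op_cen ρ).root
    rw [← h1] at h2
    exact not_op_pc [] i h2
  · exfalso
    have h1 : cen π = pc [] j := hxy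
    have h2 := (op_cen π).root
    rw [h1] at h2
    exact not_op_pc [] j h2
  · congr 1
    exact key π ρ hxy

/-- A vertex on an inner edge is one of its endpoints. -/
theorem vertex_on_inner {π : Adr} {k : Fin 3} {x : BV}
    (h : bpos x ∈ segment ℝ (cen π) (pc π k)) : x = Sum.inr π ∨ x = corners π k := by
  by_cases hx : bpos x = pc π k
  · right
    rw [pc_eq] at hx
    exact bpos_injective hx
  · left
    have ho := op_of_seg h hx
    rcases x with i | ρ
    · exact absurd ho.root (not_op_pc [] i)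
    · by_contra hne
      have hne' : π ≠ ρ := fun e => hne (by rw [e])
      obtain ⟨α, i, e⟩ := op_disjoint hne' (cen ρ) ho (op_cen ρ) rfl
      have h1 := op_cen ρ
      have h2 : Op (i :: π) (cen ρ) := by
        have := h1
        rw [e] at this
        rw [e]
        exact this.anc
      exact not_op_child_of_seg h i h2

theorem outer_lam {i j : Fin 3} {p : ℝ × ℝ} (hp : p ∈ segment ℝ (pc [] i) (pc [] j)) (k : Fin 3)
    (hi : k ≠ i) (hj : k ≠ j) : lam [] p k = 0 := by
  obtain ⟨a, b, ha, hb, hab, rfl⟩ := hp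
  rw [lam_seg _ _ _ hab, lam_pc, lam_pc, if_neg hi, if_neg hj]; ring

theorem not_op_outer {i j : Fin 3} {p : ℝ × ℝ} (hp : p ∈ segment ℝ (pc [] i) (pc [] j)) :
    ¬ Op [] p := by
  intro h
  obtain ⟨k, hi, hj⟩ := third i j
  have := h k
  rw [outer_lam hp k hi hj] at this
  exact lt_irrefl _ this

/-- A vertex on an outer edge is one of its endpoints. -/
theorem vertex_on_outer {i j : Fin 3} {x : BV}
    (h : bpos x ∈ segment ℝ (pc [] i) (pc [] j)) : x = Sum.inl i ∨ x = Sum.inl j := by
  rcases x with k | ρ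
  · by_contra hne
    push Not at hne
    have h1 := outer_lam h k (fun e => hne.1 (by rw [e])) (fun e => hne.2 (by rw [e]))
    have h2 : lam [] (bpos (Sum.inl k)) k = 1 := by
      show lam [] (pc [] k) k = 1
      rw [lam_pc, if_pos rfl]
    rw [h2] at h1
    norm_num at h1
  · exact absurd (op_cen ρ).root (not_op_outer h)

/-- Two segments meet only in a common endpoint. -/
def Good (u v x y : BV) : Prop := ∀ p, p ∈ segment ℝ (bpos u) (bpos v) →
  p ∈ segment ℝ (bpos x) (bpos y) → ∃ w, (w = u ∨ w = v) ∧ (w = x ∨ w = y) ∧ p = bpos w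

theorem Good.swapL {u v x y : BV} (h : Good u v x y) : Good v u x y := by
  intro p hp hq
  rw [segment_symm] at hp
  obtain ⟨w, h1, h2, h3⟩ := h p hp hq
  exact ⟨w, h1.symm, h2, h3⟩

theorem Good.swapR {u v x y : BV} (h : Good u v x y) : Good u v y x := by
  intro p hp hq
  rw [segment_symm] at hq
  obtain ⟨w, h1, h2, h3⟩ := h p hp hq
  exact ⟨w, h1, h2.symm, h3⟩

theorem Good.comm {u v x y : BV} (h : Good u v x y) : Good x y u v := by
  intro p hp hq
  obtain ⟨w, h1, h2, h3⟩ := h p hq hp
  exact ⟨w, h2, h1, h3⟩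

theorem good_inner_inner (π : Adr) (k : Fin 3) (ρ : Adr) (l : Fin 3)
    (hne : ¬ (π = ρ ∧ k = l)) :
    Good (Sum.inr π) (corners π k) (Sum.inr ρ) (corners ρ l) := by
  -- the descendant case
  have desc : ∀ (π : Adr) (k : Fin 3) (ρ : Adr) (l : Fin 3), (∃ α i, ρ = α ++ i :: π) →
      Good (Sum.inr π) (corners π k) (Sum.inr ρ) (corners ρ l) := by
    rintro π k ρ l ⟨α, i, e⟩ p hp hq
    have hp' : p ∈ segment ℝ (cen π) (pc π k) := by rw [pc_eq]; exact hp
    have hq' : p ∈ segment ℝ (cen ρ) (pc ρ l) := by rw [pc_eq]; exact hq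
    by_cases hpl : p = pc ρ l
    · have e2 : p = bpos (corners ρ l) := by rw [hpl, pc_eq]
      refine ⟨corners ρ l, ?_, Or.inr rfl, e2⟩
      rw [e2] at hp'
      exact vertex_on_inner hp'
    · exfalso
      have := op_of_seg hq' hpl
      rw [e] at this
      exact not_op_child_of_seg hp' i this.anc
  rcases trichotomy π ρ with e | e | e | ⟨μ, i, j, α, β, hij, h1, h2⟩
  · subst e
    have hkl : k ≠ l := fun h => hne ⟨rfl, h⟩
    intro p hp hq
    have hp' : p ∈ segment ℝ (cen π) (pc π k) := by rw [pc_eq]; exact hp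
    have hq' : p ∈ segment ℝ (cen π) (pc π l) := by rw [pc_eq]; exact hq
    refine ⟨Sum.inr π, Or.inl rfl, Or.inl rfl, ?_⟩
    obtain ⟨a, b, ha, hb, hab, rfl⟩ := hp'
    obtain ⟨a', b', ha', hb', hab', e⟩ := hq'
    have ek : lam π (a • cen π + b • pc π k) k = lam π (a' • cen π + b' • pc π l) k := by rw [e]
    have el : lam π (a • cen π + b • pc π k) l = lam π (a' • cen π + b' • pc π l) l := by rw [e]
    rw [lam_seg _ _ _ hab, lam_seg _ _ _ hab', lam_cen, lam_pc, lam_pc, if_pos rfl,
      if_neg hkl] at ek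
    rw [lam_seg _ _ _ hab, lam_seg _ _ _ hab', lam_cen, lam_pc, lam_pc, if_neg hkl.symm,
      if_pos rfl] at el
    have hb0 : b = 0 := by linarith
    have ha1 : a = 1 := by linarith
    rw [hb0, ha1]; simp [bpos]
  · exact desc π k ρ l e
  · exact (desc ρ l π k e).comm
  · intro p hp hq
    have hp' : p ∈ segment ℝ (cen π) (pc π k) := by rw [pc_eq]; exact hp
    have hq' : p ∈ segment ℝ (cen ρ) (pc ρ l) := by rw [pc_eq]; exact hq
    have e1 : p = pc π k := by
      by_contra hcon
      have k1 := op_of_seg hp' hcon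
      have k2 := cl_of_seg hq'
      rw [h1] at k1
      rw [h2] at k2
      exact sibling hij k1.anc k2.anc
    have e2 : p = pc ρ l := by
      by_contra hcon
      have k1 := op_of_seg hq' hcon
      have k2 := cl_of_seg hp'
      rw [h2] at k1
      rw [h1] at k2
      exact sibling hij.symm k1.anc k2.anc
    have e3 : corners π k = corners ρ l := by
      apply bpos_injective
      rw [← pc_eq, ← pc_eq, ← e1, ← e2]
    exact ⟨corners π k, Or.inr rfl, Or.inr e3, by rw [e1, pc_eq]⟩

theorem good_inner_outer (π : Adr) (k i j : Fin 3) :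
    Good (Sum.inr π) (corners π k) (Sum.inl i) (Sum.inl j) := by
  intro p hp hq
  have hp' : p ∈ segment ℝ (cen π) (pc π k) := by rw [pc_eq]; exact hp
  have hq' : p ∈ segment ℝ (pc [] i) (pc [] j) := hq
  have e1 : p = pc π k := by
    by_contra hcon
    exact not_op_outer hq' (op_of_seg hp' hcon).root
  have e2 : p = bpos (corners π k) := by rw [e1, pc_eq]
  refine ⟨corners π k, Or.inr rfl, ?_, e2⟩
  rw [e2] at hq'
  exact vertex_on_outer hq'

theorem common_corner (i j k l : Fin 3) (hij : i ≠ j) (hkl : k ≠ l)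
    (hne : s(i, j) ≠ s(k, l)) : ∃ m a b : Fin 3, m ≠ a ∧ m ≠ b ∧ a ≠ b ∧
      (m = i ∧ a = j ∨ m = j ∧ a = i) ∧ (m = k ∧ b = l ∨ m = l ∧ b = k) := by
  revert i j k l; decide

theorem fin3_cover (m a b t : Fin 3) (h1 : m ≠ a) (h2 : m ≠ b) (h3 : a ≠ b) :
    t = m ∨ t = a ∨ t = b := by
  revert m a b t; decide

theorem sum_lam {p : ℝ × ℝ} (m a b : Fin 3) (h1 : m ≠ a) (h2 : m ≠ b) (h3 : a ≠ b) :
    lam [] p m + lam [] p a + lam [] p b = 1 := by
  have hsum : lam [] p 0 + lam [] p 1 + lam [] p 2 = 1 := by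
    show (1 - p.1 - p.2) + p.1 + p.2 = 1
    ring
  rcases fin3 m with h | h | h <;> rcases fin3 a with h' | h' | h' <;>
    rcases fin3 b with h'' | h'' | h'' <;> subst h <;> subst h' <;> subst h'' <;>
    first
    | exact absurd rfl h1
    | exact absurd rfl h2
    | exact absurd rfl h3
    | linarith

theorem good_outer_outer (i j k l : Fin 3) (hij : i ≠ j) (hkl : k ≠ l)
    (hne : s(i, j) ≠ s(k, l)) : Good (Sum.inl i) (Sum.inl j) (Sum.inl k) (Sum.inl l) := by
  intro p hp hq
  have hp' : p ∈ segment ℝ (pc [] i) (pc [] j) := hp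
  have hq' : p ∈ segment ℝ (pc [] k) (pc [] l) := hq
  -- the common corner
  obtain ⟨m, a, b, hma, hmb, hab, hm1, hm2⟩ := common_corner i j k l hij hkl hne
  refine ⟨Sum.inl m, ?_, ?_, ?_⟩
  · rcases hm1 with h | h
    · left; rw [h.1]
    · right; rw [h.1]
  · rcases hm2 with h | h
    · left; rw [h.1]
    · right; rw [h.1]
  · -- coordinates a and b vanish
    have zb : lam [] p b = 0 := by
      rcases hm1 with h | h
      · exact outer_lam hp' b (by rw [← h.1]; exact hmb.symm) (by rw [← h.2]; exact hab.symm)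
      · exact outer_lam hp' b (by rw [← h.2]; exact hab.symm) (by rw [← h.1]; exact hmb.symm)
    have za : lam [] p a = 0 := by
      rcases hm2 with h | h
      · exact outer_lam hq' a (by rw [← h.1]; exact hma.symm) (by rw [← h.2]; exact hab)
      · exact outer_lam hq' a (by rw [← h.2]; exact hab) (by rw [← h.1]; exact hma.symm)
    have hm : lam [] p m = 1 := by
      have := sum_lam (p := p) m a b hma hmb hab
      linarith
    apply lam_inj []
    intro t
    show lam [] p t = lam [] (pc [] m) t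
    rw [lam_pc]
    have ht : t = m ∨ t = a ∨ t = b := fin3_cover m a b t hma hmb hab
    rcases ht with h | h | h
    · subst h; rw [if_pos rfl, hm]
    · subst h; rw [if_neg hma.symm, za]
    · subst h; rw [if_neg hmb.symm, zb]

theorem corners_length {π : Adr} {k : Fin 3} {ρ : Adr} (h : corners π k = Sum.inr ρ) :
    ρ.length < π.length := by
  induction π with
  | nil => exact absurd h (by simp [corners])
  | cons i π ih =>
    rw [corners] at h
    by_cases hk : k = i
    · subst hk
      rw [Function.update_self] at h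
      have : π = ρ := by simpa using h
      rw [← this]; simp
    · rw [Function.update_of_ne hk] at h
      have := ih h
      simp only [List.length_cons]; omega

/-- The infinite stacked triangulation. -/
def bigGraph : SimpleGraph BV where
  Adj x y := (∃ π k, x = Sum.inr π ∧ y = corners π k) ∨ (∃ π k, y = Sum.inr π ∧ x = corners π k) ∨
    (∃ i j, i ≠ j ∧ x = Sum.inl i ∧ y = Sum.inl j)
  symm := ⟨fun x y h => by
    rcases h with h | h | ⟨i, j, hij, h1, h2⟩
    · exact Or.inr (Or.inl h)
    · exact Or.inl h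
    · exact Or.inr (Or.inr ⟨j, i, hij.symm, h2, h1⟩)⟩
  loopless := ⟨fun x h => by
    rcases h with ⟨π, k, h1, h2⟩ | ⟨π, k, h1, h2⟩ | ⟨i, j, hij, h1, h2⟩
    · rw [h1] at h2; exact absurd (corners_length h2.symm) (lt_irrefl _)
    · rw [h1] at h2; exact absurd (corners_length h2.symm) (lt_irrefl _)
    · rw [h1] at h2; exact hij (by simpa using h2)⟩

theorem bigGraph_drawing : IsDrawing bigGraph bpos where
  inj := bpos_injective
  vertex_off := by
    intro u v w huv hwu hwv hmem
    rcases huv with ⟨π, k, rfl, rfl⟩ | ⟨π, k, rfl, rfl⟩ | ⟨i, j, hij, rfl, rfl⟩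
    · have : bpos w ∈ segment ℝ (cen π) (pc π k) := by rw [pc_eq]; exact hmem
      rcases vertex_on_inner this with h | h
      · exact hwu h
      · exact hwv h
    · have : bpos w ∈ segment ℝ (cen π) (pc π k) := by
        rw [pc_eq, segment_symm]; exact hmem
      rcases vertex_on_inner this with h | h
      · exact hwv h
      · exact hwu h
    · rcases vertex_on_outer (i := i) (j := j) hmem with h | h
      · exact hwu h
      · exact hwv h
  edges_meet := by
    intro u v x y huv hxy hne
    show Good u v x y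
    rcases huv with ⟨π, k, rfl, rfl⟩ | ⟨π, k, rfl, rfl⟩ | ⟨i, j, hij, rfl, rfl⟩ <;>
      rcases hxy with ⟨ρ, l, rfl, rfl⟩ | ⟨ρ, l, rfl, rfl⟩ | ⟨i', j', hij', rfl, rfl⟩
    · refine good_inner_inner π k ρ l ?_
      rintro ⟨rfl, rfl⟩; exact hne rfl
    · refine (good_inner_inner π k ρ l ?_).swapR
      rintro ⟨rfl, rfl⟩; exact hne Sym2.eq_swap
    · exact good_inner_outer π k i' j'
    · refine (good_inner_inner π k ρ l ?_).swapL
      rintro ⟨rfl, rfl⟩; exact hne Sym2.eq_swap
    · refine (good_inner_inner π k ρ l ?_).swapL.swapR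
      rintro ⟨rfl, rfl⟩; exact hne rfl
    · exact (good_inner_outer π k i' j').swapL
    · exact (good_inner_outer ρ l i j).comm
    · exact (good_inner_outer ρ l i j).comm.swapR
    · refine good_outer_outer i j i' j' hij hij' ?_
      intro e
      apply hne
      rw [Sym2.eq_iff] at e ⊢
      rcases e with ⟨rfl, rfl⟩ | ⟨rfl, rfl⟩
      · exact Or.inl ⟨rfl, rfl⟩
      · exact Or.inr ⟨rfl, rfl⟩

/-- Drawings restrict along injective homomorphisms. -/
theorem IsDrawing.comap {V W : Type*} {G : SimpleGraph V} {H : SimpleGraph W} {f : W → ℝ × ℝ}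
    (h : IsDrawing H f) (φ : V → W) (hφ : Function.Injective φ)
    (hadj : ∀ x y, G.Adj x y → H.Adj (φ x) (φ y)) : IsDrawing G (f ∘ φ) where
  inj := h.inj.comp hφ
  vertex_off u v w huv hwu hwv :=
    h.vertex_off (φ u) (φ v) (φ w) (hadj u v huv) (hφ.ne hwu) (hφ.ne hwv)
  edges_meet u v x y huv hxy hne p hp hq := by
    have hne' : s(φ u, φ v) ≠ s(φ x, φ y) := by
      intro e
      apply hne
      rw [Sym2.eq_iff] at e ⊢
      rcases e with ⟨e1, e2⟩ | ⟨e1, e2⟩
      · exact Or.inl ⟨hφ e1, hφ e2⟩
      · exact Or.inr ⟨hφ e1, hφ e2⟩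
    obtain ⟨w, h1, h2, h3⟩ := h.edges_meet _ _ _ _ (hadj u v huv) (hadj x y hxy) hne' p hp hq
    rcases h1 with rfl | rfl
    · refine ⟨u, Or.inl rfl, ?_, h3⟩
      rcases h2 with h2 | h2
      · exact Or.inl (hφ h2)
      · exact Or.inr (hφ h2)
    · refine ⟨v, Or.inr rfl, ?_, h3⟩
      rcases h2 with h2 | h2
      · exact Or.inl (hφ h2)
      · exact Or.inr (hφ h2)

end Pool.Agent.H42.UP
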