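import Pool.Agent.H42.UP.Draw

/-!
# Drawings of chains of fans
-/

namespace Pool.Agent.H42.UP

/-- A chain of fans in a graph: two poles `b`, `c`, a path `z 0, ..., z M` of common neighbours of
the poles and, for every step `j < M`, a fan of `P j` vertices stacked into the triangle
`z j, z (j+1), b` and a fan of `Q j` vertices stacked into `z j, z (j+1), c`. -/
structure ChainSys {V : Type*} (G : SimpleGraph V) (M : ℕ) (P Q : ℕ → ℕ) where
  b : V
  c : V
  z : ℕ → V
  w : ℕ → ℕ → V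
  u : ℕ → ℕ → V
  bc : G.Adj b c
  zb : ∀ j ≤ M, G.Adj (z j) b
  zc : ∀ j ≤ M, G.Adj (z j) c
  zz : ∀ j < M, G.Adj (z j) (z (j + 1))
  wb : ∀ j < M, ∀ t < P j, G.Adj (w j t) b
  wz : ∀ j < M, ∀ t < P j, G.Adj (w j t) (z (j + 1))
  w0 : ∀ j < M, 0 < P j → G.Adj (w j 0) (z j)
  ws : ∀ j < M, ∀ t, t + 1 < P j → G.Adj (w j (t + 1)) (w j t)
  uc : ∀ j < M, ∀ t < Q j, G.Adj (u j t) c
  uz : ∀ j < M, ∀ t < Q j, G.Adj (u j t) (z (j + 1))
  u0 : ∀ j < M, 0 < Q j → G.Adj (u j 0) (z j)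
  us : ∀ j < M, ∀ t, t + 1 < Q j → G.Adj (u j (t + 1)) (u j t)
  z_ne : ∀ i ≤ M, ∀ j ≤ M, i ≠ j → z i ≠ z j
  wz_ne : ∀ j < M, ∀ t < P j, ∀ i ≤ M, w j t ≠ z i
  uz_ne : ∀ j < M, ∀ t < Q j, ∀ i ≤ M, u j t ≠ z i
  wc_ne : ∀ j < M, ∀ t < P j, w j t ≠ c
  ub_ne : ∀ j < M, ∀ t < Q j, u j t ≠ b
  ww_ne : ∀ j < M, ∀ t < P j, ∀ j' < M, ∀ t' < P j', (j, t) ≠ (j', t') → w j t ≠ w j' t'
  uu_ne : ∀ j < M, ∀ t < Q j, ∀ j' < M, ∀ t' < Q j', (j, t) ≠ (j', t') → u j t ≠ u j' t'
  cover : ∀ v : V, v = b ∨ v = c ∨ (∃ j ≤ M, v = z j) ∨ (∃ j < M, ∃ t < P j, v = w j t) ∨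
    (∃ j < M, ∃ t < Q j, v = u j t)

theorem InTri.trans {x y z p q : ℝ × ℝ} (h : InTri x y z p) (h' : InTri p y z q) :
    InTri x y z q := by
  obtain ⟨α, β, γ, h1, h2, h3, h4, h5⟩ := h
  obtain ⟨a, b, c, k1, k2, k3, k4, k5⟩ := h'
  refine ⟨a * α, a * β + b, a * γ + c, by positivity, by positivity, by positivity, ?_, ?_⟩
  · have : β + γ = 1 - α := by linarith
    nlinarith
  · rw [k5, h5]
    ext
    · simp only [Prod.fst_add, Prod.smul_fst, smul_eq_mul]; ring
    · simp only [Prod.snd_add, Prod.smul_snd, smul_eq_mul]; ring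

theorem InTri.not_corner {x y z : ℝ × ℝ} (h : det x y z ≠ 0) : ¬ InTri x y z x := by
  rintro ⟨α, β, γ, h1, h2, h3, h4, h5⟩
  have e : (1 : ℝ) • x + (0 : ℝ) • y + (0 : ℝ) • z = α • x + β • y + γ • z := by
    rw [← h5]; simp
  have := bary_unique h (by ring) h4 e
  linarith [this.2.1]

variable {V : Type*} {G : SimpleGraph V} {f : V → ℝ × ℝ} {M : ℕ} {P Q : ℕ → ℕ}

namespace ChainSys

/-- Exchange the two poles. -/
def swap (S : ChainSys G M P Q) : ChainSys G M Q P where
  b := S.c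
  c := S.b
  z := S.z
  w := S.u
  u := S.w
  bc := S.bc.symm
  zb := S.zc
  zc := S.zb
  zz := S.zz
  wb := S.uc
  wz := S.uz
  w0 := S.u0
  ws := S.us
  uc := S.wb
  uz := S.wz
  u0 := S.w0
  us := S.ws
  z_ne := S.z_ne
  wz_ne := S.uz_ne
  uz_ne := S.wz_ne
  wc_ne := S.ub_ne
  ub_ne := S.wc_ne
  ww_ne := S.uu_ne
  uu_ne := S.ww_ne
  cover := by
    intro v
    rcases S.cover v with h | h | h | h | h
    · exact Or.inr (Or.inl h)
    · exact Or.inl h
    · exact Or.inr (Or.inr (Or.inl h))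
    · exact Or.inr (Or.inr (Or.inr (Or.inr h)))
    · exact Or.inr (Or.inr (Or.inr (Or.inl h)))

variable (S : ChainSys G M P Q) (f)

/-- Step `j` is nested upwards. -/
def Up (j : ℕ) : Prop := InTri (f (S.z (j + 1))) (f S.b) (f S.c) (f (S.z j))

/-- Step `j` is nested downwards. -/
def Down (j : ℕ) : Prop := InTri (f (S.z j)) (f S.b) (f S.c) (f (S.z (j + 1)))

variable {f} {S}

theorem up_swap {j : ℕ} : S.swap.Up f j ↔ S.Up f j := ⟨fun h => h.swap23, fun h => h.swap23⟩

theorem down_swap {j : ℕ} : S.swap.Down f j ↔ S.Down f j := ⟨fun h => h.swap23, fun h => h.swap23⟩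

theorem up_or_down (h : IsDrawing G f) {j : ℕ} (hj : j + 1 < M) : S.Up f j ∨ S.Down f (j + 1) :=
  h.at_least_one (S.zb (j + 1) hj.le) S.bc (S.zc (j + 1) hj.le) (S.zz j (by omega))
    (S.zb j (by omega)) (S.zc j (by omega)) (S.zz (j + 1) hj).symm (S.zb (j + 1 + 1) (by omega))
    (S.zc (j + 1 + 1) (by omega)) (S.z_ne j (by omega) (j + 1 + 1) (by omega) (by omega))

theorem not_up_down_succ (h : IsDrawing G f) {j : ℕ} (hj : j + 1 < M) (h1 : S.Up f j)
    (h2 : S.Down f (j + 1)) : False :=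
  h.not_both (S.zb (j + 1) hj.le) S.bc (S.zc (j + 1) hj.le) (S.zz j (by omega))
    (S.zb j (by omega)) (S.zc j (by omega)) (S.zz (j + 1) hj).symm (S.zb (j + 1 + 1) (by omega))
    (S.zc (j + 1 + 1) (by omega)) (S.z_ne j (by omega) (j + 1 + 1) (by omega) (by omega)) h1 h2

theorem not_up_down (h : IsDrawing G f) {j : ℕ} (hj : j < M) (h1 : S.Up f j)
    (h2 : S.Down f j) : False :=
  h.excl (x := S.z (j + 1)) (v := S.z j) S.bc (S.zb j hj.le).ne (S.zc j hj.le).ne h1 h2

/-- Downward nestedness propagates. -/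
theorem down_succ (h : IsDrawing G f) {j : ℕ} (hj : j + 1 < M) (h1 : S.Down f j) :
    S.Down f (j + 1) :=
  (up_or_down h hj).resolve_left fun h2 => not_up_down h (by omega) h2 h1

theorem down_of_not_up (h : IsDrawing G f) {p : ℕ} (hp : ¬ S.Up f p) :
    ∀ j, p < j → j < M → S.Down f j := by
  intro j hpj hjM
  obtain ⟨k, rfl⟩ : ∃ k, j = p + 1 + k := ⟨j - (p + 1), by omega⟩
  induction k with
  | zero => exact (up_or_down h (by omega)).resolve_left hp
  | succ k ih =>
    have := ih (by omega) (by omega)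
    exact down_succ h (j := p + 1 + k) (by omega) this

/-- In a nested step the pole `c` is outside the triangle containing the `b`-fan. -/
theorem c_outside (h : IsDrawing G f) {j : ℕ} (hj : j < M) (hs : S.Up f j ∨ S.Down f j) :
    ¬ InTri (f (S.z j)) (f (S.z (j + 1))) (f S.b) (f S.c) := by
  intro hc
  rcases hs with hs | hs
  · -- z j inside z (j+1), b, c
    exact h.excl (x := S.c) (y := S.z (j + 1)) (z := S.b) (v := S.z j) (S.zb (j + 1) hj)
      (S.zz j hj).ne (S.zb j hj.le).ne hs.rot' hc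
  · exact h.excl (x := S.c) (y := S.z j) (z := S.b) (v := S.z (j + 1)) (S.zb j hj.le)
      (S.zz j hj).symm.ne (S.zb (j + 1) hj).ne hs.rot' hc.swap12

/-- The predecessor of the `t`-th vertex of the `b`-fan at step `j`. -/
def pred (S : ChainSys G M P Q) (j : ℕ) : ℕ → V
  | 0 => S.z j
  | t + 1 => S.w j t

theorem pred_b {j t : ℕ} (hj : j < M) (ht : t < P j) : G.Adj (S.pred j t) S.b := by
  cases t with
  | zero => exact S.zb j hj.le
  | succ t => exact S.wb j hj t (by omega)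

theorem pred_z {j t : ℕ} (hj : j < M) (ht : t < P j) : G.Adj (S.pred j t) (S.z (j + 1)) := by
  cases t with
  | zero => exact S.zz j hj
  | succ t => exact S.wz j hj t (by omega)

theorem pred_w {j t : ℕ} (hj : j < M) (ht : t < P j) : G.Adj (S.w j t) (S.pred j t) := by
  cases t with
  | zero => exact S.w0 j hj ht
  | succ t => exact S.ws j hj t ht

theorem pred_ne {j t : ℕ} (hj : j < M) (ht : t + 1 < P j) : S.pred j t ≠ S.w j (t + 1) := by
  cases t with
  | zero => exact (S.wz_ne j hj 1 ht j hj.le).symm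
  | succ t => exact S.ww_ne j hj t (by omega) j hj (t + 1 + 1) ht (by simp; omega)

/-- If the pole `c` is outside, then the vertices of the `b`-fan are nested inside. -/
theorem fan_inside (h : IsDrawing G f) {j : ℕ} (hj : j < M)
    (hc : ¬ InTri (f (S.z j)) (f (S.z (j + 1))) (f S.b) (f S.c)) :
    ∀ t < P j, InTri (f (S.pred j t)) (f (S.z (j + 1))) (f S.b) (f (S.w j t)) := by
  intro t
  induction t with
  | zero =>
    intro ht
    exact (h.at_least_one (S.zz j hj) (S.zb (j + 1) hj) (S.zb j hj.le) (S.zc j hj.le).symm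
      (S.zc (j + 1) hj).symm S.bc.symm (S.w0 j hj ht) (S.wz j hj 0 ht) (S.wb j hj 0 ht)
      (S.wc_ne j hj 0 ht).symm).resolve_left hc
  | succ t ih =>
    intro ht
    have ih := ih (by omega)
    have ht' : t < P j := by omega
    have hout : ¬ InTri (f (S.w j t)) (f (S.z (j + 1))) (f S.b) (f (S.pred j t)) := by
      intro hin
      exact h.excl (x := S.pred j t) (y := S.z (j + 1)) (z := S.b) (v := S.w j t)
        (S.zb (j + 1) hj) (S.wz j hj t ht').ne (S.wb j hj t ht').ne ih hin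
    exact (h.at_least_one (S.wz j hj t ht') (S.zb (j + 1) hj) (S.wb j hj t ht')
      (pred_w hj ht').symm (pred_z hj ht') (pred_b hj ht')
      (S.ws j hj t ht) (S.wz j hj (t + 1) ht) (S.wb j hj (t + 1) ht) (pred_ne hj ht)).resolve_left
      hout

theorem fan_inside' (h : IsDrawing G f) {j : ℕ} (hj : j < M)
    (hc : ¬ InTri (f (S.z j)) (f (S.z (j + 1))) (f S.b) (f S.c)) :
    ∀ t < P j, InTri (f (S.z j)) (f (S.z (j + 1))) (f S.b) (f (S.w j t)) := by
  intro t
  induction t with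
  | zero => intro ht; exact fan_inside h hj hc 0 ht
  | succ t ih =>
    intro ht
    exact (ih (by omega)).trans (fan_inside h hj hc (t + 1) ht)

/-- If the pole `c` is outside, then all other vertices are outside. -/
theorem others_outside (h : IsDrawing G f) {j : ℕ} (hj : j < M)
    (hc : ¬ InTri (f (S.z j)) (f (S.z (j + 1))) (f S.b) (f S.c)) {v : V}
    (hv : InTri (f (S.z j)) (f (S.z (j + 1))) (f S.b) (f v)) : ∃ t < P j, v = S.w j t := by
  have t1 := S.zz j hj
  have t2 := S.zb (j + 1) hj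
  have t3 := S.zb j hj.le
  have hdet := h.det_ne t1 t2 t3
  have nz : v ≠ S.z j := by
    rintro rfl; exact InTri.not_corner hdet hv
  have nz1 : v ≠ S.z (j + 1) := by
    rintro rfl
    exact InTri.not_corner (h.det_ne t1.symm t3 t2) hv.swap12
  have nb : v ≠ S.b := by
    rintro rfl
    exact InTri.not_corner (h.det_ne t3.symm t1 t2.symm) hv.rot'
  have cz : S.c ≠ S.z j := (S.zc j hj.le).symm.ne
  have cz1 : S.c ≠ S.z (j + 1) := (S.zc (j + 1) hj).symm.ne
  have cb : S.c ≠ S.b := S.bc.symm.ne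
  -- neighbours of c
  have hadj : ∀ v, InTri (f (S.z j)) (f (S.z (j + 1))) (f S.b) (f v) → v ≠ S.z j →
      v ≠ S.z (j + 1) → v ≠ S.b → ¬ G.Adj v S.c := by
    intro v hv n1 n2 n3 hvc
    exact hc (h.inTri_of_adj t1 t2 t3 hvc n1 n2 n3 cz cz1 cb hv)
  have hz : ∀ i ≤ M, i ≠ j → i ≠ j + 1 →
      ¬ InTri (f (S.z j)) (f (S.z (j + 1))) (f S.b) (f (S.z i)) := by
    intro i hi h1 h2 hin
    exact hadj _ hin (S.z_ne i hi j hj.le h1) (S.z_ne i hi (j + 1) hj h2) (S.zb i hi).ne
      (S.zc i hi)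
  rcases S.cover v with rfl | rfl | ⟨i, hi, rfl⟩ | ⟨i, hi, t, ht, rfl⟩ | ⟨i, hi, t, ht, rfl⟩
  · exact absurd rfl nb
  · exact absurd hv hc
  · exact absurd (S.zc i hi) (hadj _ hv nz nz1 nb)
  · by_cases hij : i = j
    · subst hij; exact ⟨t, ht, rfl⟩
    · exfalso
      by_cases hij1 : i + 1 = j
      · -- go down the fan
        have hfan : ∀ t < P i, ¬ InTri (f (S.z j)) (f (S.z (j + 1))) (f S.b) (f (S.w i t)) := by
          intro t
          induction t with
          | zero =>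
            intro ht hin
            have := h.inTri_of_adj t1 t2 t3 (S.w0 i hi ht) (S.wz_ne i hi 0 ht j hj.le)
              (S.wz_ne i hi 0 ht (j + 1) hj) (S.wb i hi 0 ht).ne
              (S.z_ne i hi.le j hj.le hij) (S.z_ne i hi.le (j + 1) hj (by omega))
              (S.zb i hi.le).ne hin
            exact hz i hi.le hij (by omega) this
          | succ t ih =>
            intro ht hin
            have ht' : t < P i := by omega
            have := h.inTri_of_adj t1 t2 t3 (S.ws i hi t ht) (S.wz_ne i hi (t + 1) ht j hj.le)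
              (S.wz_ne i hi (t + 1) ht (j + 1) hj) (S.wb i hi (t + 1) ht).ne
              (S.wz_ne i hi t ht' j hj.le) (S.wz_ne i hi t ht' (j + 1) hj)
              (S.wb i hi t ht').ne hin
            exact ih ht' this
        exact hfan t ht hv
      · have := h.inTri_of_adj t1 t2 t3 (S.wz i hi t ht) nz nz1 nb
          (S.z_ne (i + 1) hi j hj.le hij1) (S.z_ne (i + 1) hi (j + 1) hj (by omega))
          (S.zb (i + 1) hi).ne hv
        exact hz (i + 1) hi hij1 (by omega) this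
  · exact absurd (S.uc i hi t ht) (hadj _ hv nz nz1 nb)

end ChainSys

end Pool.Agent.H42.UP
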