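import Pool.Agent.H42.UP.Big
import Pool.Agent.H42.UP.Chain

/-!
# The chain-of-fans graphs
-/

namespace Pool.Agent.H42.UP

/-- Vertices of the chain-of-fans graphs. -/
inductive Vtx
  | b : Vtx
  | c : Vtx
  | z : ℕ → Vtx
  | w : ℕ → ℕ → Vtx
  | u : ℕ → ℕ → Vtx
  deriving DecidableEq

namespace Vtx

/-- Adjacencies, oriented towards the parents. -/
inductive PAdj : Vtx → Vtx → Prop
  | bc : PAdj b c
  | zb (j : ℕ) : PAdj (z j) b
  | zc (j : ℕ) : PAdj (z j) c
  | zz (j : ℕ) : PAdj (z (j + 1)) (z j)
  | wb (j t : ℕ) : PAdj (w j t) b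
  | wz (j t : ℕ) : PAdj (w j t) (z (j + 1))
  | w0 (j : ℕ) : PAdj (w j 0) (z j)
  | ws (j t : ℕ) : PAdj (w j (t + 1)) (w j t)
  | uc (j t : ℕ) : PAdj (u j t) c
  | uz (j t : ℕ) : PAdj (u j t) (z (j + 1))
  | u0 (j : ℕ) : PAdj (u j 0) (z j)
  | us (j t : ℕ) : PAdj (u j (t + 1)) (u j t)

theorem PAdj.ne {x y : Vtx} (h : PAdj x y) : x ≠ y := by
  intro e
  cases h <;> simp at e

/-- The infinite chain-of-fans graph. -/
def cgraph : SimpleGraph Vtx where
  Adj x y := PAdj x y ∨ PAdj y x
  symm := ⟨fun _ _ h => h.symm⟩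
  loopless := ⟨fun _ h => h.elim (fun h => h.ne rfl) (fun h => h.ne rfl)⟩

/-- The embedding into the infinite stacked triangulation. -/
def emb : Vtx → BV
  | b => Sum.inl 1
  | c => Sum.inl 2
  | z 0 => Sum.inl 0
  | z (j + 1) => Sum.inr (List.replicate j 0)
  | w j t => Sum.inr (List.replicate t 0 ++ 2 :: List.replicate j 0)
  | u j t => Sum.inr (List.replicate t 0 ++ 1 :: List.replicate j 0)

theorem corners_main (j : ℕ) : corners (List.replicate j 0) 0 = emb (z j) ∧
    corners (List.replicate j 0) 1 = emb b ∧ corners (List.replicate j 0) 2 = emb c := by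
  induction j with
  | zero => exact ⟨rfl, rfl, rfl⟩
  | succ j ih =>
    rw [List.replicate_succ, corners]
    refine ⟨?_, ?_, ?_⟩
    · rw [Function.update_self]; rfl
    · rw [Function.update_of_ne (by decide)]; exact ih.2.1
    · rw [Function.update_of_ne (by decide)]; exact ih.2.2

theorem corners_w (j t : ℕ) :
    corners (List.replicate t 0 ++ 2 :: List.replicate j 0) 0 =
      (match t with | 0 => emb (z j) | t + 1 => emb (w j t)) ∧
    corners (List.replicate t 0 ++ 2 :: List.replicate j 0) 1 = emb b ∧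
    corners (List.replicate t 0 ++ 2 :: List.replicate j 0) 2 = emb (z (j + 1)) := by
  induction t with
  | zero =>
    rw [List.replicate_zero, List.nil_append, corners]
    refine ⟨?_, ?_, ?_⟩
    · rw [Function.update_of_ne (by decide)]; exact (corners_main j).1
    · rw [Function.update_of_ne (by decide)]; exact (corners_main j).2.1
    · rw [Function.update_self]; rfl
  | succ t ih =>
    rw [List.replicate_succ, List.cons_append, corners]
    refine ⟨?_, ?_, ?_⟩
    · rw [Function.update_self]; rfl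
    · rw [Function.update_of_ne (by decide)]; exact ih.2.1
    · rw [Function.update_of_ne (by decide)]; exact ih.2.2

theorem corners_u (j t : ℕ) :
    corners (List.replicate t 0 ++ 1 :: List.replicate j 0) 0 =
      (match t with | 0 => emb (z j) | t + 1 => emb (u j t)) ∧
    corners (List.replicate t 0 ++ 1 :: List.replicate j 0) 1 = emb (z (j + 1)) ∧
    corners (List.replicate t 0 ++ 1 :: List.replicate j 0) 2 = emb c := by
  induction t with
  | zero =>
    rw [List.replicate_zero, List.nil_append, corners]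
    refine ⟨?_, ?_, ?_⟩
    · rw [Function.update_of_ne (by decide)]; exact (corners_main j).1
    · rw [Function.update_self]; rfl
    · rw [Function.update_of_ne (by decide)]; exact (corners_main j).2.2
  | succ t ih =>
    rw [List.replicate_succ, List.cons_append, corners]
    refine ⟨?_, ?_, ?_⟩
    · rw [Function.update_self]; rfl
    · rw [Function.update_of_ne (by decide)]; exact ih.2.1
    · rw [Function.update_of_ne (by decide)]; exact ih.2.2

theorem dec_eq {k k' : Fin 3} (hk : k ≠ 0) (hk' : k' ≠ 0) (t j t' j' : ℕ)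
    (h : List.replicate t 0 ++ k :: List.replicate j 0 =
      List.replicate t' 0 ++ k' :: List.replicate j' 0) : t = t' ∧ k = k' ∧ j = j' := by
  induction t generalizing t' with
  | zero =>
    cases t' with
    | zero =>
      simp only [List.replicate_zero, List.nil_append, List.cons.injEq] at h
      have := congrArg List.length h.2
      simp at this
      exact ⟨rfl, h.1, this⟩
    | succ t' =>
      simp only [List.replicate_zero, List.nil_append, List.replicate_succ, List.cons_append,
        List.cons.injEq] at h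
      exact absurd h.1 hk
  | succ t ih =>
    cases t' with
    | zero =>
      simp only [List.replicate_zero, List.nil_append, List.replicate_succ, List.cons_append,
        List.cons.injEq] at h
      exact absurd h.1.symm hk'
    | succ t' =>
      simp only [List.replicate_succ, List.cons_append, List.cons.injEq] at h
      obtain ⟨h1, h2, h3⟩ := ih t' h.2
      exact ⟨by omega, h2, h3⟩

theorem rep_ne {k : Fin 3} (hk : k ≠ 0) (t j j' : ℕ) :
    List.replicate j' (0 : Fin 3) ≠ List.replicate t 0 ++ k :: List.replicate j 0 := by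
  intro h
  have : k ∈ List.replicate j' (0 : Fin 3) := by rw [h]; simp
  exact hk (List.eq_of_mem_replicate this)

theorem emb_injective : Function.Injective emb := by
  have h10 : (1 : Fin 3) ≠ 0 := by decide
  have h20 : (2 : Fin 3) ≠ 0 := by decide
  intro x y h
  match x, y with
  | b, b => rfl
  | b, c => exact absurd h (by simp [emb])
  | b, z 0 => exact absurd h (by simp [emb])
  | b, z (j + 1) => exact absurd h (by simp [emb])
  | b, w j t => exact absurd h (by simp [emb])
  | b, u j t => exact absurd h (by simp [emb])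
  | c, b => exact absurd h (by simp [emb])
  | c, c => rfl
  | c, z 0 => exact absurd h (by simp [emb])
  | c, z (j + 1) => exact absurd h (by simp [emb])
  | c, w j t => exact absurd h (by simp [emb])
  | c, u j t => exact absurd h (by simp [emb])
  | z 0, b => exact absurd h (by simp [emb])
  | z 0, c => exact absurd h (by simp [emb])
  | z 0, z 0 => rfl
  | z 0, z (j + 1) => exact absurd h (by simp [emb])
  | z 0, w j t => exact absurd h (by simp [emb])
  | z 0, u j t => exact absurd h (by simp [emb])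
  | z (i + 1), b => exact absurd h (by simp [emb])
  | z (i + 1), c => exact absurd h (by simp [emb])
  | z (i + 1), z 0 => exact absurd h (by simp [emb])
  | z (i + 1), z (j + 1) =>
    have h1 : List.replicate i (0 : Fin 3) = List.replicate j 0 := by simpa [emb] using h
    have := congrArg List.length h1
    simp at this
    rw [this]
  | z (i + 1), w j t =>
    have h1 : List.replicate i (0 : Fin 3) = List.replicate t 0 ++ 2 :: List.replicate j 0 :=
      Sum.inr_injective h
    exact absurd h1 (rep_ne h20 t j i)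
  | z (i + 1), u j t =>
    have h1 : List.replicate i (0 : Fin 3) = List.replicate t 0 ++ 1 :: List.replicate j 0 :=
      Sum.inr_injective h
    exact absurd h1 (rep_ne h10 t j i)
  | w j t, b => exact absurd h (by simp [emb])
  | w j t, c => exact absurd h (by simp [emb])
  | w j t, z 0 => exact absurd h (by simp [emb])
  | w j t, z (i + 1) =>
    have h1 : List.replicate t (0 : Fin 3) ++ 2 :: List.replicate j 0 = List.replicate i 0 :=
      Sum.inr_injective h
    exact absurd h1.symm (rep_ne h20 t j i)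
  | w j t, w j' t' =>
    have h1 : List.replicate t (0 : Fin 3) ++ 2 :: List.replicate j 0 =
      List.replicate t' 0 ++ 2 :: List.replicate j' 0 := Sum.inr_injective h
    obtain ⟨e1, -, e2⟩ := dec_eq h20 h20 _ _ _ _ h1
    rw [e1, e2]
  | w j t, u j' t' =>
    have h1 : List.replicate t (0 : Fin 3) ++ 2 :: List.replicate j 0 =
      List.replicate t' 0 ++ 1 :: List.replicate j' 0 := Sum.inr_injective h
    exact absurd (dec_eq h20 h10 _ _ _ _ h1).2.1 (by decide)
  | u j t, b => exact absurd h (by simp [emb])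
  | u j t, c => exact absurd h (by simp [emb])
  | u j t, z 0 => exact absurd h (by simp [emb])
  | u j t, z (i + 1) =>
    have h1 : List.replicate t (0 : Fin 3) ++ 1 :: List.replicate j 0 = List.replicate i 0 :=
      Sum.inr_injective h
    exact absurd h1.symm (rep_ne h10 t j i)
  | u j t, w j' t' =>
    have h1 : List.replicate t (0 : Fin 3) ++ 1 :: List.replicate j 0 =
      List.replicate t' 0 ++ 2 :: List.replicate j' 0 := Sum.inr_injective h
    exact absurd (dec_eq h10 h20 _ _ _ _ h1).2.1 (by decide)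
  | u j t, u j' t' =>
    have h1 : List.replicate t (0 : Fin 3) ++ 1 :: List.replicate j 0 =
      List.replicate t' 0 ++ 1 :: List.replicate j' 0 := Sum.inr_injective h
    obtain ⟨e1, -, e2⟩ := dec_eq h10 h10 _ _ _ _ h1
    rw [e1, e2]

theorem emb_adj {x y : Vtx} (h : cgraph.Adj x y) : bigGraph.Adj (emb x) (emb y) := by
  have key : ∀ {x y : Vtx}, PAdj x y → bigGraph.Adj (emb x) (emb y) := by
    intro x y h
    cases h with
    | bc => exact Or.inr (Or.inr ⟨1, 2, by decide, rfl, rfl⟩)
    | zb j =>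
      cases j with
      | zero => exact Or.inr (Or.inr ⟨0, 1, by decide, rfl, rfl⟩)
      | succ j => exact Or.inl ⟨List.replicate j 0, 1, rfl, (corners_main j).2.1.symm⟩
    | zc j =>
      cases j with
      | zero => exact Or.inr (Or.inr ⟨0, 2, by decide, rfl, rfl⟩)
      | succ j => exact Or.inl ⟨List.replicate j 0, 2, rfl, (corners_main j).2.2.symm⟩
    | zz j => exact Or.inl ⟨List.replicate j 0, 0, rfl, (corners_main j).1.symm⟩
    | wb j t => exact Or.inl ⟨_, 1, rfl, (corners_w j t).2.1.symm⟩
    | wz j t => exact Or.inl ⟨_, 2, rfl, (corners_w j t).2.2.symm⟩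
    | w0 j => exact Or.inl ⟨_, 0, rfl, (corners_w j 0).1.symm⟩
    | ws j t => exact Or.inl ⟨_, 0, rfl, (corners_w j (t + 1)).1.symm⟩
    | uc j t => exact Or.inl ⟨_, 2, rfl, (corners_u j t).2.2.symm⟩
    | uz j t => exact Or.inl ⟨_, 1, rfl, (corners_u j t).2.1.symm⟩
    | u0 j => exact Or.inl ⟨_, 0, rfl, (corners_u j 0).1.symm⟩
    | us j t => exact Or.inl ⟨_, 0, rfl, (corners_u j (t + 1)).1.symm⟩
  rcases h with h | h
  · exact key h
  · exact (key h).symm

/-- The vertex set of a finite chain of fans. -/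
def verts (M : ℕ) (P Q : ℕ → ℕ) : Finset Vtx :=
  {b, c} ∪ (Finset.range (M + 1)).image z ∪
    ((Finset.range M).biUnion fun j => (Finset.range (P j)).image (w j)) ∪
    ((Finset.range M).biUnion fun j => (Finset.range (Q j)).image (u j))

variable {M : ℕ} {P Q : ℕ → ℕ}

theorem b_mem : b ∈ verts M P Q := by simp [verts]

theorem c_mem : c ∈ verts M P Q := by simp [verts]

theorem z_mem {j : ℕ} : z j ∈ verts M P Q ↔ j ≤ M := by
  simp [verts]

theorem w_mem {j t : ℕ} : w j t ∈ verts M P Q ↔ j < M ∧ t < P j := by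
  simp [verts]

theorem u_mem {j t : ℕ} : u j t ∈ verts M P Q ↔ j < M ∧ t < Q j := by
  simp [verts]

theorem card_verts : (verts M P Q).card =
    M + 3 + ∑ j ∈ Finset.range M, P j + ∑ j ∈ Finset.range M, Q j := by
  have h1 : (({b, c} : Finset Vtx) ∪ (Finset.range (M + 1)).image z).card = M + 3 := by
    rw [Finset.card_union_of_disjoint]
    · rw [Finset.card_image_of_injective _ (fun x y h => by simpa using h), Finset.card_range,
        Finset.card_pair (by simp)]
      omega
    · rw [Finset.disjoint_left]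
      intro x hx hx'
      simp at hx hx'
      obtain ⟨j, -, rfl⟩ := hx'
      simp at hx
  have h2 : ((Finset.range M).biUnion fun j => (Finset.range (P j)).image (w j)).card =
      ∑ j ∈ Finset.range M, P j := by
    rw [Finset.card_biUnion]
    · refine Finset.sum_congr rfl fun j _ => ?_
      rw [Finset.card_image_of_injective _ (fun x y h => by simpa using h), Finset.card_range]
    · intro i _ j _ hij
      show Disjoint _ _
      rw [Finset.disjoint_left]
      intro x hx hx'
      simp at hx hx'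
      obtain ⟨s, -, rfl⟩ := hx
      obtain ⟨t, -, h⟩ := hx'
      simp at h
      exact hij h.1.symm
  have h3 : ((Finset.range M).biUnion fun j => (Finset.range (Q j)).image (u j)).card =
      ∑ j ∈ Finset.range M, Q j := by
    rw [Finset.card_biUnion]
    · refine Finset.sum_congr rfl fun j _ => ?_
      rw [Finset.card_image_of_injective _ (fun x y h => by simpa using h), Finset.card_range]
    · intro i _ j _ hij
      show Disjoint _ _
      rw [Finset.disjoint_left]
      intro x hx hx'
      simp at hx hx'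
      obtain ⟨s, -, rfl⟩ := hx
      obtain ⟨t, -, h⟩ := hx'
      simp at h
      exact hij h.1.symm
  rw [verts, Finset.card_union_of_disjoint, Finset.card_union_of_disjoint, h1, h2, h3]
  · rw [Finset.disjoint_left]
    intro x hx hx'
    simp at hx hx'
    obtain ⟨j, -, t, -, rfl⟩ := hx'
    simp at hx
  · rw [Finset.disjoint_left]
    intro x hx hx'
    simp at hx hx'
    obtain ⟨j, -, t, -, rfl⟩ := hx'
    simp at hx

/-- The finite chain of fans. -/
def fgraph (M : ℕ) (P Q : ℕ → ℕ) : SimpleGraph (verts M P Q) := cgraph.comap Subtype.val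

theorem fgraph_planar (M : ℕ) (P Q : ℕ → ℕ) : IsPlanar (fgraph M P Q) :=
  ⟨_, bigGraph_drawing.comap (fun x : verts M P Q => emb x.1)
    (emb_injective.comp Subtype.val_injective) (fun _ _ h => emb_adj h)⟩

/-- Vertices of the subtype with junk value `b`. -/
def mk (M : ℕ) (P Q : ℕ → ℕ) (v : Vtx) : verts M P Q :=
  if h : v ∈ verts M P Q then ⟨v, h⟩ else ⟨b, b_mem⟩

theorem mk_val {v : Vtx} (h : v ∈ verts M P Q) : (mk M P Q v).1 = v := by
  rw [mk, dif_pos h]

theorem mk_adj {v v' : Vtx} (h : v ∈ verts M P Q) (h' : v' ∈ verts M P Q)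
    (hadj : PAdj v v') : (fgraph M P Q).Adj (mk M P Q v) (mk M P Q v') := by
  show cgraph.Adj (mk M P Q v).1 (mk M P Q v').1
  rw [mk_val h, mk_val h']
  exact Or.inl hadj

theorem mk_ne {v v' : Vtx} (h : v ∈ verts M P Q) (h' : v' ∈ verts M P Q) (hne : v ≠ v') :
    mk M P Q v ≠ mk M P Q v' := by
  intro e
  have := congrArg Subtype.val e
  rw [mk_val h, mk_val h'] at this
  exact hne this

/-- The finite chain-of-fans graph carries the structure of a chain of fans. -/
def chainSys (M : ℕ) (P Q : ℕ → ℕ) : ChainSys (fgraph M P Q) M P Q where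
  b := mk M P Q b
  c := mk M P Q c
  z j := mk M P Q (z j)
  w j t := mk M P Q (w j t)
  u j t := mk M P Q (u j t)
  bc := mk_adj b_mem c_mem PAdj.bc
  zb j hj := mk_adj (z_mem.2 hj) b_mem (PAdj.zb j)
  zc j hj := mk_adj (z_mem.2 hj) c_mem (PAdj.zc j)
  zz j hj := (mk_adj (z_mem.2 hj) (z_mem.2 hj.le) (PAdj.zz j)).symm
  wb j hj t ht := mk_adj (w_mem.2 ⟨hj, ht⟩) b_mem (PAdj.wb j t)
  wz j hj t ht := mk_adj (w_mem.2 ⟨hj, ht⟩) (z_mem.2 hj) (PAdj.wz j t)
  w0 j hj ht := mk_adj (w_mem.2 ⟨hj, ht⟩) (z_mem.2 hj.le) (PAdj.w0 j)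
  ws j hj t ht := mk_adj (w_mem.2 ⟨hj, ht⟩) (w_mem.2 ⟨hj, by omega⟩) (PAdj.ws j t)
  uc j hj t ht := mk_adj (u_mem.2 ⟨hj, ht⟩) c_mem (PAdj.uc j t)
  uz j hj t ht := mk_adj (u_mem.2 ⟨hj, ht⟩) (z_mem.2 hj) (PAdj.uz j t)
  u0 j hj ht := mk_adj (u_mem.2 ⟨hj, ht⟩) (z_mem.2 hj.le) (PAdj.u0 j)
  us j hj t ht := mk_adj (u_mem.2 ⟨hj, ht⟩) (u_mem.2 ⟨hj, by omega⟩) (PAdj.us j t)
  z_ne i hi j hj hij := mk_ne (z_mem.2 hi) (z_mem.2 hj) (by simpa using hij)
  wz_ne j hj t ht i hi := mk_ne (w_mem.2 ⟨hj, ht⟩) (z_mem.2 hi) (by simp)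
  uz_ne j hj t ht i hi := mk_ne (u_mem.2 ⟨hj, ht⟩) (z_mem.2 hi) (by simp)
  wc_ne j hj t ht := mk_ne (w_mem.2 ⟨hj, ht⟩) c_mem (by simp)
  ub_ne j hj t ht := mk_ne (u_mem.2 ⟨hj, ht⟩) b_mem (by simp)
  ww_ne j hj t ht j' hj' t' ht' hne := mk_ne (w_mem.2 ⟨hj, ht⟩) (w_mem.2 ⟨hj', ht'⟩) (by
    intro e; apply hne; simpa using e)
  uu_ne j hj t ht j' hj' t' ht' hne := mk_ne (u_mem.2 ⟨hj, ht⟩) (u_mem.2 ⟨hj', ht'⟩) (by
    intro e; apply hne; simpa using e)
  cover v := by
    have hv : v = mk M P Q v.1 := Subtype.ext (mk_val v.2).symm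
    obtain ⟨x, hx⟩ := v
    cases x with
    | b => exact Or.inl hv
    | c => exact Or.inr (Or.inl hv)
    | z j => exact Or.inr (Or.inr (Or.inl ⟨j, z_mem.1 hx, hv⟩))
    | w j t =>
      have := w_mem.1 hx
      exact Or.inr (Or.inr (Or.inr (Or.inl ⟨j, this.1, t, this.2, hv⟩)))
    | u j t =>
      have := u_mem.1 hx
      exact Or.inr (Or.inr (Or.inr (Or.inr ⟨j, this.1, t, this.2, hv⟩)))

end Vtx

end Pool.Agent.H42.UP
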