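import Pool.Agent.H42.UP.Read

/-!
# Placing drawings in tiny flat clusters along a parabola
-/

namespace Pool.Agent.H42.UP

/-- Maps that preserve convex combinations of two points. -/
def PresSeg (Φ : ℝ × ℝ → ℝ × ℝ) : Prop :=
  ∀ (a b : ℝ) (p q : ℝ × ℝ), a + b = 1 → Φ (a • p + b • q) = a • Φ p + b • Φ q

theorem IsDrawing.map {V : Type*} {G : SimpleGraph V} {f : V → ℝ × ℝ} (h : IsDrawing G f)
    {Φ : ℝ × ℝ → ℝ × ℝ} (hinj : Function.Injective Φ) (hΦ : PresSeg Φ) :
    IsDrawing G (fun v => Φ (f v)) := by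
  have hseg : ∀ {x y p : ℝ × ℝ}, p ∈ segment ℝ (Φ x) (Φ y) → ∃ r ∈ segment ℝ x y, p = Φ r := by
    rintro x y p ⟨a, b, ha, hb, hab, rfl⟩
    exact ⟨a • x + b • y, ⟨a, b, ha, hb, hab, rfl⟩, (hΦ a b x y hab).symm⟩
  refine ⟨hinj.comp h.inj, ?_, ?_⟩
  · intro u v w huv hwu hwv hmem
    obtain ⟨r, hr, e⟩ := hseg hmem
    rw [← hinj e] at hr
    exact h.vertex_off u v w huv hwu hwv hr
  · intro u v x y huv hxy hne p hp hq
    obtain ⟨r, hr, e⟩ := hseg hp
    obtain ⟨r', hr', e'⟩ := hseg hq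
    have : r = r' := hinj (e.symm.trans e')
    rw [← this] at hr'
    obtain ⟨w, h1, h2, h3⟩ := h.edges_meet u v x y huv hxy hne r hr hr'
    exact ⟨w, h1, h2, by rw [e, h3]⟩

/-- The label of a point: the nearest integer to its abscissa. -/
noncomputable def lab (q : ℝ × ℝ) : ℤ := ⌊q.1 + 1 / 2⌋

/-- The cluster map. -/
def cmap (u ε τ θ : ℝ) (p : ℝ × ℝ) : ℝ × ℝ :=
  (u + ε * (p.1 + θ * p.2), u ^ 2 + 2 * u * ε * (p.1 + θ * p.2) + τ * p.2)

theorem cmap_pres (u ε τ θ : ℝ) : PresSeg (cmap u ε τ θ) := by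
  intro a b p q hab
  ext
  · simp only [cmap, Prod.fst_add, Prod.smul_fst, smul_eq_mul, Prod.snd_add, Prod.smul_snd]
    linear_combination (-u) * hab
  · simp only [cmap, Prod.fst_add, Prod.smul_fst, smul_eq_mul, Prod.snd_add, Prod.smul_snd]
    linear_combination (-u ^ 2) * hab

theorem cmap_inj (u ε τ θ : ℝ) (hε : 0 < ε) (hτ : 0 < τ) :
    Function.Injective (cmap u ε τ θ) := by
  intro p q h
  have h1 := congrArg Prod.fst h
  have h2 := congrArg Prod.snd h
  simp only [cmap] at h1 h2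
  have e1 : p.1 + θ * p.2 = q.1 + θ * q.2 := by
    have : ε * (p.1 + θ * p.2) = ε * (q.1 + θ * q.2) := by linarith
    exact mul_left_cancel₀ (ne_of_gt hε) this
  have e2 : p.2 = q.2 := by
    have : τ * p.2 = τ * q.2 := by rw [e1] at h2; linarith
    exact mul_left_cancel₀ (ne_of_gt hτ) this
  ext
  · rw [e2] at e1; linarith
  · exact e2

theorem exists_shear (F : Finset (ℝ × ℝ)) :
    ∃ θ : ℝ, ∀ p ∈ F, ∀ q ∈ F, p ≠ q → p.1 + θ * p.2 ≠ q.1 + θ * q.2 := by
  classical
  obtain ⟨θ, hθ⟩ := Infinite.exists_notMem_finset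
    ((F ×ˢ F).image fun r => (r.2.1 - r.1.1) / (r.1.2 - r.2.2))
  refine ⟨θ, fun p hp q hq hne e => ?_⟩
  by_cases h2 : p.2 = q.2
  · apply hne
    ext
    · rw [h2] at e; linarith
    · exact h2
  · apply hθ
    rw [Finset.mem_image]
    refine ⟨(p, q), by simp [hp, hq], ?_⟩
    have : p.2 - q.2 ≠ 0 := sub_ne_zero.2 h2
    simp only
    rw [div_eq_iff this]
    linarith

theorem exists_lower (A : Finset ℝ) (hA : ∀ a ∈ A, 0 < a) :
    ∃ g : ℝ, 0 < g ∧ g ≤ 1 ∧ ∀ a ∈ A, g ≤ a := by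
  classical
  induction A using Finset.induction_on with
  | empty => exact ⟨1, one_pos, le_refl _, by simp⟩
  | insert a A _ ih =>
    obtain ⟨g, h1, h2, h3⟩ := ih fun x hx => hA x (Finset.mem_insert_of_mem hx)
    have ha := hA a (Finset.mem_insert_self a A)
    refine ⟨min g a, lt_min h1 ha, (min_le_left _ _).trans h2, fun x hx => ?_⟩
    rcases Finset.mem_insert.1 hx with rfl | hx
    · exact min_le_right _ _
    · exact (min_le_left _ _).trans (h3 x hx)

theorem exists_upper (A : Finset ℝ) : ∃ R : ℝ, 1 ≤ R ∧ ∀ a ∈ A, a ≤ R := by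
  classical
  induction A using Finset.induction_on with
  | empty => exact ⟨1, le_refl _, by simp⟩
  | insert a A _ ih =>
    obtain ⟨R, h1, h2⟩ := ih
    refine ⟨max R a, h1.trans (le_max_left _ _), fun x hx => ?_⟩
    rcases Finset.mem_insert.1 hx with rfl | hx
    · exact le_max_right _ _
    · exact (h2 x hx).trans (le_max_left _ _)

/-- The height above the tangent of the parabola at abscissa `u`. -/
def ht (u : ℝ) (q : ℝ × ℝ) : ℝ := q.2 - 2 * u * q.1 + u ^ 2

theorem ht_cmap (u ε τ θ : ℝ) (p : ℝ × ℝ) : ht u (cmap u ε τ θ p) = τ * p.2 := by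
  simp only [ht, cmap]; ring

theorem exists_clusters {ι : Type} [Fintype ι] (F : ι → Finset (ℝ × ℝ)) :
    ∃ (Φ : ι → ℝ × ℝ → ℝ × ℝ) (κ : ι → ℤ), Function.Injective κ ∧
      (∀ c, Function.Injective (Φ c)) ∧ (∀ c, PresSeg (Φ c)) ∧
      (∀ c, ∀ p ∈ F c, lab (Φ c p) = κ c) ∧
      ∀ S : Finset (ℝ × ℝ), (∀ q ∈ S, ∃ c, ∃ p ∈ F c, Φ c p = q) → Separated S lab := by
  classical
  choose θ hθ using fun c => exists_shear (F c)
  let e := Fintype.equivFin ι
  set N : ℝ := (Fintype.card ι : ℝ) with hN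
  have hN0 : 0 ≤ N := Nat.cast_nonneg _
  let u : ι → ℝ := fun c => ((e c : ℕ) : ℝ)
  have hu0 : ∀ c, 0 ≤ u c := fun c => Nat.cast_nonneg _
  have huN : ∀ c, u c ≤ N := fun c => by
    rw [hN]; exact Nat.cast_le.2 (e c).2.le
  have hu1 : ∀ c c', c ≠ c' → 1 ≤ |u c - u c'| := by
    intro c c' hne
    have h1 : ((e c : ℕ) : ℤ) ≠ ((e c' : ℕ) : ℤ) := by
      intro h
      exact hne (e.injective (Fin.ext (by exact_mod_cast h)))
    have h2 : (1 : ℤ) ≤ |((e c : ℕ) : ℤ) - ((e c' : ℕ) : ℤ)| :=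
      Int.one_le_abs (sub_ne_zero.2 h1)
    have h3 : ((1 : ℤ) : ℝ) ≤ ((|((e c : ℕ) : ℤ) - ((e c' : ℕ) : ℤ)| : ℤ) : ℝ) :=
      Int.cast_le.2 h2
    simpa using h3
  let ξ : ι → ℝ × ℝ → ℝ := fun c p => p.1 + θ c * p.2
  -- bounds
  obtain ⟨R, hR1, hR⟩ := exists_upper ((Finset.univ : Finset ι).biUnion fun c =>
    ((F c).image fun p => |ξ c p|) ∪ ((F c).image fun p => |p.2|))
  have hRξ : ∀ c, ∀ p ∈ F c, |ξ c p| ≤ R := fun c p hp => hR _ (by
    rw [Finset.mem_biUnion]
    exact ⟨c, Finset.mem_univ _, Finset.mem_union_left _ (Finset.mem_image_of_mem _ hp)⟩)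
  have hRy : ∀ c, ∀ p ∈ F c, |p.2| ≤ R := fun c p hp => hR _ (by
    rw [Finset.mem_biUnion]
    exact ⟨c, Finset.mem_univ _, Finset.mem_union_right _ (Finset.mem_image_of_mem _ hp)⟩)
  obtain ⟨g, hg0, hg1, hg⟩ := exists_lower ((Finset.univ : Finset ι).biUnion fun c =>
    (((F c).offDiag).image fun r => |ξ c r.1 - ξ c r.2|)) (by
      intro a ha
      rw [Finset.mem_biUnion] at ha
      obtain ⟨c, -, ha⟩ := ha
      rw [Finset.mem_image] at ha
      obtain ⟨r, hr, rfl⟩ := ha
      rw [Finset.mem_offDiag] at hr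
      exact abs_pos.2 (sub_ne_zero.2 (hθ c _ hr.1 _ hr.2.1 hr.2.2)))
  have hgξ : ∀ c, ∀ p ∈ F c, ∀ q ∈ F c, p ≠ q → g ≤ |ξ c p - ξ c q| :=
    fun c p hp q hq hne => hg _ (by
      rw [Finset.mem_biUnion]
      refine ⟨c, Finset.mem_univ _, ?_⟩
      rw [Finset.mem_image]
      exact ⟨(p, q), Finset.mem_offDiag.2 ⟨hp, hq, hne⟩, rfl⟩)
  have hR0 : 0 < R := by linarith
  set ε : ℝ := 1 / (8 * R) with hε
  have hε0 : 0 < ε := by positivity
  have hεR : ε * R = 1 / 8 := by rw [hε]; field_simp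
  set l : ℝ := 1 / (16 * (N + 1)) with hl
  have hl0 : 0 < l := by positivity
  have hlN : l * (N + 1) = 1 / 16 := by rw [hl]; field_simp
  have hl1 : l ≤ 1 / 16 := by
    have : l * 1 ≤ l * (N + 1) := mul_le_mul_of_nonneg_left (by linarith) hl0.le
    linarith
  set τ : ℝ := l * ε * g / (4 * R) with hτ
  have hτ0 : 0 < τ := by positivity
  have hτR : τ * R = l * ε * g / 4 := by rw [hτ]; field_simp
  have hε1 : ε ≤ 1 / 8 := by
    have : ε * 1 ≤ ε * R := mul_le_mul_of_nonneg_left hR1 hε0.le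
    linarith
  have hlεg : 0 < l * ε * g := by positivity
  have hle1 : l * ε * g ≤ 1 / 16 := by
    have h1 : l * ε ≤ 1 / 16 := by nlinarith
    have h2 : l * ε * g ≤ l * ε * 1 := mul_le_mul_of_nonneg_left hg1 (by positivity)
    linarith
  let Φ : ι → ℝ × ℝ → ℝ × ℝ := fun c => cmap (u c) ε τ (θ c)
  have hX : ∀ c, ∀ p ∈ F c, |(Φ c p).1 - u c| ≤ 1 / 8 := by
    intro c p hp
    have : (Φ c p).1 - u c = ε * ξ c p := by simp only [Φ, cmap, ξ]; ring
    rw [this, abs_mul, abs_of_pos hε0, ← hεR]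
    exact mul_le_mul_of_nonneg_left (hRξ c p hp) hε0.le
  have hlab : ∀ c, ∀ p ∈ F c, lab (Φ c p) = ((e c : ℕ) : ℤ) := by
    intro c p hp
    have h1 := abs_le.1 (hX c p hp)
    rw [lab, Int.floor_eq_iff]
    have h2 : (((e c : ℕ) : ℤ) : ℝ) = u c := by simp [u]
    rw [h2]
    constructor <;> linarith [h1.1, h1.2]
  have hτy : ∀ c, ∀ p ∈ F c, |τ * p.2| ≤ l * ε * g / 4 := by
    intro c p hp
    rw [abs_mul, abs_of_pos hτ0, ← hτR]
    exact mul_le_mul_of_nonneg_left (hRy c p hp) hτ0.le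
  -- heights of other clusters
  have hhigh : ∀ c c', c ≠ c' → ∀ p ∈ F c', 1 / 2 ≤ ht (u c) (Φ c' p) := by
    intro c c' hne p hp
    have h1 : ht (u c) (Φ c' p) = (u c' - u c) ^ 2 + 2 * (ε * ξ c' p) * (u c' - u c) +
        τ * p.2 := by
      simp only [ht, Φ, cmap, ξ]; ring
    have h2 : |ε * ξ c' p| ≤ 1 / 8 := by
      rw [abs_mul, abs_of_pos hε0, ← hεR]
      exact mul_le_mul_of_nonneg_left (hRξ c' p hp) hε0.le
    have h3 := hu1 c' c hne.symm
    have h4 := abs_le.1 (hτy c' p hp)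
    rw [h1]
    set d := u c' - u c with hd
    set s := ε * ξ c' p with hs
    have h5 : -(1 / 8 * |d|) ≤ s * d := by
      have : |s * d| ≤ 1 / 8 * |d| := by
        rw [abs_mul]; exact mul_le_mul_of_nonneg_right h2 (abs_nonneg _)
      have := (abs_le.1 this).1
      linarith
    have h6 : d ^ 2 = |d| ^ 2 := (sq_abs d).symm
    rw [h6]
    nlinarith [h4.1, abs_nonneg d]
  refine ⟨Φ, fun c => ((e c : ℕ) : ℤ), ?_, fun c => cmap_inj _ _ _ _ hε0 hτ0,
    fun c => cmap_pres _ _ _ _, hlab, ?_⟩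
  · intro c c' h
    have h' : ((e c : ℕ) : ℤ) = ((e c' : ℕ) : ℤ) := h
    exact e.injective (Fin.ext (by exact_mod_cast h'))
  · intro S hS
    -- the core statement
    have core : ∀ x ∈ S, ∀ y ∈ S, ∀ z ∈ S, ∀ q ∈ S, q ≠ x → InTri x y z q → lab y ≠ lab q →
        lab z ≠ lab q → False := by
      intro x hx y hy z hz q hq hqx hin hly hlz
      obtain ⟨cx, px, hpx, rfl⟩ := hS x hx
      obtain ⟨cy, py, hpy, rfl⟩ := hS y hy
      obtain ⟨cz, pz, hpz, rfl⟩ := hS z hz
      obtain ⟨cq, pq, hpq, rfl⟩ := hS q hq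
      have hcy : cq ≠ cy := by
        rintro rfl; exact hly (by rw [hlab _ _ hpy, hlab _ _ hpq])
      have hcz : cq ≠ cz := by
        rintro rfl; exact hlz (by rw [hlab _ _ hpz, hlab _ _ hpq])
      obtain ⟨α, β, γ, h1, h2, h3, h4, h5⟩ := hin
      have hq2 := abs_le.1 (hτy cq pq hpq)
      have hhq : ht (u cq) (Φ cq pq) = τ * pq.2 := ht_cmap _ _ _ _ _
      -- affine functional
      have haff : ∀ m : ℝ, ht (u cq) (Φ cq pq) + m * ((Φ cq pq).1 - (Φ cq pq).1) =
          α * (ht (u cq) (Φ cx px) + m * ((Φ cx px).1 - (Φ cq pq).1)) +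
          β * (ht (u cq) (Φ cy py) + m * ((Φ cy py).1 - (Φ cq pq).1)) +
          γ * (ht (u cq) (Φ cz pz) + m * ((Φ cz pz).1 - (Φ cq pq).1)) := by
        intro m
        have e1 := congrArg Prod.fst h5
        have e2 := congrArg Prod.snd h5
        simp only [Prod.fst_add, Prod.smul_fst, smul_eq_mul, Prod.snd_add, Prod.smul_snd] at e1 e2
        simp only [ht]
        linear_combination e2 + (-2 * u cq + m) * e1 +
          (m * (Φ cq pq).1 - (u cq) ^ 2) * h4
      have hyv := hhigh cq cy hcy py hpy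
      have hzv := hhigh cq cz hcz pz hpz
      by_cases hcx : cq = cx
      · subst hcx
        have hne : px ≠ pq := by
          rintro rfl; exact hqx rfl
        have hgap := hgξ cq px hpx pq hpq hne
        have hx2 := abs_le.1 (hτy cq px hpx)
        have hhx : ht (u cq) (Φ cq px) = τ * px.2 := ht_cmap _ _ _ _ _
        -- abscissa differences
        have hdx : (Φ cq px).1 - (Φ cq pq).1 = ε * (ξ cq px - ξ cq pq) := by
          simp only [Φ, cmap, ξ]; ring
        have hfar : ∀ c, ∀ p ∈ F c, |(Φ c p).1 - (Φ cq pq).1| ≤ N + 1 := by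
          intro c p hp
          have k1 := abs_le.1 (hX c p hp)
          have k2 := abs_le.1 (hX cq pq hpq)
          rw [abs_le]
          constructor <;> linarith [hu0 c, huN c, hu0 cq, huN cq, k1.1, k1.2, k2.1, k2.2]
        have hy' := abs_le.1 (hfar cy py hpy)
        have hz' := abs_le.1 (hfar cz pz hpz)
        rcases le_total 0 (ξ cq px - ξ cq pq) with hs | hs
        · rw [abs_of_nonneg hs] at hgap
          have := haff l
          rw [hhq, hhx, hdx, sub_self, mul_zero, add_zero] at this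
          have t1 : l * ε * g - l * ε * g / 4 ≤ τ * px.2 + l * (ε * (ξ cq px - ξ cq pq)) := by
            have : l * ε * g ≤ l * ε * (ξ cq px - ξ cq pq) :=
              mul_le_mul_of_nonneg_left hgap (by positivity)
            linarith [hx2.1]
          have t2 : 7 / 16 ≤ ht (u cq) (Φ cy py) + l * ((Φ cy py).1 - (Φ cq pq).1) := by
            have : -(l * (N + 1)) ≤ l * ((Φ cy py).1 - (Φ cq pq).1) := by
              rw [← mul_neg]; exact mul_le_mul_of_nonneg_left hy'.1 hl0.le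
            linarith
          have t3 : 7 / 16 ≤ ht (u cq) (Φ cz pz) + l * ((Φ cz pz).1 - (Φ cq pq).1) := by
            have : -(l * (N + 1)) ≤ l * ((Φ cz pz).1 - (Φ cq pq).1) := by
              rw [← mul_neg]; exact mul_le_mul_of_nonneg_left hz'.1 hl0.le
            linarith
          have s1 : α * (l * ε * g / 2) ≤ α * (τ * px.2 + l * (ε * (ξ cq px - ξ cq pq))) :=
            mul_le_mul_of_nonneg_left (by linarith) h1.le
          have s2 : β * (l * ε * g / 2) ≤ β * (ht (u cq) (Φ cy py) +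
              l * ((Φ cy py).1 - (Φ cq pq).1)) :=
            mul_le_mul_of_nonneg_left (by linarith) h2.le
          have s3 : γ * (l * ε * g / 2) ≤ γ * (ht (u cq) (Φ cz pz) +
              l * ((Φ cz pz).1 - (Φ cq pq).1)) :=
            mul_le_mul_of_nonneg_left (by linarith) h3.le
          have s4 : α * (l * ε * g / 2) + β * (l * ε * g / 2) + γ * (l * ε * g / 2) =
              l * ε * g / 2 := by
            rw [← add_mul, ← add_mul, h4, one_mul]
          linarith [hq2.2]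
        · rw [abs_of_nonpos hs] at hgap
          have := haff (-l)
          rw [hhq, hhx, hdx, sub_self, mul_zero, add_zero] at this
          have t1 : l * ε * g - l * ε * g / 4 ≤ τ * px.2 + -l * (ε * (ξ cq px - ξ cq pq)) := by
            have : l * ε * g ≤ l * ε * (-(ξ cq px - ξ cq pq)) :=
              mul_le_mul_of_nonneg_left hgap (by positivity)
            linarith [hx2.1]
          have t2 : 7 / 16 ≤ ht (u cq) (Φ cy py) + -l * ((Φ cy py).1 - (Φ cq pq).1) := by
            have : l * ((Φ cy py).1 - (Φ cq pq).1) ≤ l * (N + 1) :=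
              mul_le_mul_of_nonneg_left hy'.2 hl0.le
            linarith
          have t3 : 7 / 16 ≤ ht (u cq) (Φ cz pz) + -l * ((Φ cz pz).1 - (Φ cq pq).1) := by
            have : l * ((Φ cz pz).1 - (Φ cq pq).1) ≤ l * (N + 1) :=
              mul_le_mul_of_nonneg_left hz'.2 hl0.le
            linarith
          have s1 : α * (l * ε * g / 2) ≤ α * (τ * px.2 + -l * (ε * (ξ cq px - ξ cq pq))) :=
            mul_le_mul_of_nonneg_left (by linarith) h1.le
          have s2 : β * (l * ε * g / 2) ≤ β * (ht (u cq) (Φ cy py) +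
              -l * ((Φ cy py).1 - (Φ cq pq).1)) :=
            mul_le_mul_of_nonneg_left (by linarith) h2.le
          have s3 : γ * (l * ε * g / 2) ≤ γ * (ht (u cq) (Φ cz pz) +
              -l * ((Φ cz pz).1 - (Φ cq pq).1)) :=
            mul_le_mul_of_nonneg_left (by linarith) h3.le
          have s4 : α * (l * ε * g / 2) + β * (l * ε * g / 2) + γ * (l * ε * g / 2) =
              l * ε * g / 2 := by
            rw [← add_mul, ← add_mul, h4, one_mul]
          linarith [hq2.2]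
      · have hxv := hhigh cq cx hcx px hpx
        have := haff 0
        simp only [zero_mul, add_zero] at this
        rw [hhq] at this
        have s1 : α * (1 / 2) ≤ α * ht (u cq) (Φ cx px) := mul_le_mul_of_nonneg_left hxv h1.le
        have s2 : β * (1 / 2) ≤ β * ht (u cq) (Φ cy py) := mul_le_mul_of_nonneg_left hyv h2.le
        have s3 : γ * (1 / 2) ≤ γ * ht (u cq) (Φ cz pz) := mul_le_mul_of_nonneg_left hzv h3.le
        linarith [hq2.2]
    intro x hx y hy z hz q hq hqx hqy hqz hin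
    by_contra hno
    unfold Maj at hno
    push Not at hno
    obtain ⟨n1, n2, n3⟩ := hno
    by_cases hlx : lab x = lab q
    · exact core x hx y hy z hz q hq hqx hin (n1 hlx) (n2 hlx)
    · by_cases hly : lab y = lab q
      · exact core y hy x hx z hz q hq hqy hin.swap12 hlx (n3 hly)
      · exact core z hz x hx y hy q hq hqz hin.rot' hlx hly

end Pool.Agent.H42.UP
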