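import Pool.Agent.H42.UP.Chain

/-!
# Counting the words that can be read off a fixed point set
-/

namespace Pool.Agent.H42.UP

open Classical in
/-- Number of points of `X` strictly inside the triangle `x y z`. -/
noncomputable def cnt (X : Finset (ℝ × ℝ)) (x y z : ℝ × ℝ) : ℕ := (X.filter (InTri x y z)).card

open Classical in
/-- Candidates for the next point of a chain. -/
noncomputable def cand (X : Finset (ℝ × ℝ)) (s : ℕ) (b c a : ℝ × ℝ) : Finset (ℝ × ℝ) :=
  X.filter fun v => det a b c ≠ 0 ∧ InTri a b c v ∧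
    (∀ v' ∈ X, InTri a b c v' → v' = v ∨ InTri a v b v' ∨ InTri a v c v' ∨ InTri v b c v') ∧
    cnt X a v b < s ∧ cnt X a v c < s

theorem not_both_lower {a b c v v' : ℝ × ℝ} (hd : det a b c ≠ 0) (h : InTri a b c v')
    (h1 : InTri v b c v') (h2 : InTri v' b c v) : False := by
  have h3 : v' ∈ segment ℝ b c := h1.exclusive h2
  obtain ⟨α, β, γ, k1, k2, k3, k4, k5⟩ := h
  obtain ⟨x, y, hx, hy, hxy, e⟩ := h3
  have e' : α • a + β • b + γ • c = (0 : ℝ) • a + x • b + y • c := by
    rw [← k5, ← e]; simp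
  have := bary_unique hd k4 (by linarith) e'
  linarith [this.1]

theorem card_cand_le (X : Finset (ℝ × ℝ)) (s : ℕ) (b c a : ℝ × ℝ) :
    (cand X s b c a).card ≤ 4 * s := by
  classical
  by_contra hcon
  push Not at hcon
  set C := cand X s b c a with hC
  -- upper region
  let R : ℝ × ℝ → ℝ × ℝ → Prop := fun v v' => InTri a v b v' ∨ InTri a v c v'
  have hR : ∀ v ∈ C, ∀ v' ∈ C, v ≠ v' → R v v' ∨ R v' v := by
    intro v hv v' hv' hne
    by_contra hno
    push Not at hno
    obtain ⟨n1, n2⟩ := hno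
    simp only [R, not_or] at n1 n2
    rw [hC, cand, Finset.mem_filter] at hv hv'
    obtain ⟨hvX, hdet, hin, hall, -, -⟩ := hv
    obtain ⟨hvX', -, hin', hall', -, -⟩ := hv'
    have s1 : InTri v b c v' := by
      rcases hall v' hvX' hin' with h | h | h | h
      · exact absurd h.symm hne
      · exact absurd h n1.1
      · exact absurd h n1.2
      · exact h
    have s2 : InTri v' b c v := by
      rcases hall' v hvX hin with h | h | h | h
      · exact absurd h hne
      · exact absurd h n2.1
      · exact absurd h n2.2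
      · exact h
    exact not_both_lower hdet hin' s1 s2
  have hup : ∀ v ∈ C, (C.filter (R v)).card ≤ 2 * (s - 1) := by
    intro v hv
    rw [hC, cand, Finset.mem_filter] at hv
    obtain ⟨hvX, hdet, hin, hall, c1, c2⟩ := hv
    have hsub : C.filter (R v) ⊆ X.filter (InTri a v b) ∪ X.filter (InTri a v c) := by
      intro v' hv'
      rw [Finset.mem_filter] at hv'
      have hvX' : v' ∈ X := by
        have := hv'.1
        rw [hC, cand, Finset.mem_filter] at this
        exact this.1
      rw [Finset.mem_union, Finset.mem_filter, Finset.mem_filter]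
      rcases hv'.2 with h | h
      · exact Or.inl ⟨hvX', h⟩
      · exact Or.inr ⟨hvX', h⟩
    have h1 := (Finset.card_le_card hsub).trans (Finset.card_union_le _ _)
    unfold cnt at c1 c2
    omega
  -- double counting
  have hoff : C.offDiag ⊆ (C ×ˢ C).filter (fun q => R q.1 q.2) ∪
      (C ×ˢ C).filter (fun q => R q.2 q.1) := by
    intro q hq
    rw [Finset.mem_offDiag] at hq
    rw [Finset.mem_union, Finset.mem_filter, Finset.mem_filter, Finset.mem_product]
    rcases hR q.1 hq.1 q.2 hq.2.1 hq.2.2 with h | h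
    · exact Or.inl ⟨⟨hq.1, hq.2.1⟩, h⟩
    · exact Or.inr ⟨⟨hq.1, hq.2.1⟩, h⟩
  have hA : ((C ×ˢ C).filter (fun q => R q.1 q.2)).card ≤ C.card * (2 * (s - 1)) := by
    rw [Finset.card_filter, Finset.sum_product]
    calc ∑ x ∈ C, ∑ y ∈ C, (if R x y then 1 else 0) ≤ ∑ x ∈ C, 2 * (s - 1) := by
          refine Finset.sum_le_sum fun x hx => ?_
          rw [← Finset.card_filter]
          exact hup x hx
      _ = C.card * (2 * (s - 1)) := by rw [Finset.sum_const, smul_eq_mul]
  have hB : ((C ×ˢ C).filter (fun q => R q.2 q.1)).card ≤ C.card * (2 * (s - 1)) := by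
    rw [Finset.card_filter, Finset.sum_product_right]
    calc ∑ y ∈ C, ∑ x ∈ C, (if R y x then 1 else 0) ≤ ∑ y ∈ C, 2 * (s - 1) := by
          refine Finset.sum_le_sum fun y hy => ?_
          rw [← Finset.card_filter]
          exact hup y hy
      _ = C.card * (2 * (s - 1)) := by rw [Finset.sum_const, smul_eq_mul]
  have h1 := (Finset.card_le_card hoff).trans (Finset.card_union_le _ _)
  rw [Finset.offDiag_card] at h1
  have h2 : C.card * C.card ≤ C.card * (4 * (s - 1)) + C.card := by
    have : C.card * (2 * (s - 1)) + C.card * (2 * (s - 1)) = C.card * (4 * (s - 1)) := by ring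
    omega
  have h3 : 0 < C.card := by omega
  have hs : 0 < s := by
    obtain ⟨v, hv⟩ := Finset.card_pos.1 h3
    rw [hC, cand, Finset.mem_filter] at hv
    have := hv.2.2.2.2.1
    omega
  have h4 : C.card * C.card ≤ C.card * (4 * (s - 1) + 1) := by rw [mul_add, mul_one]; exact h2
  have h5 := Nat.le_of_mul_le_mul_left h4 h3
  omega

open Classical in
/-- The words of length `L` that can be read from the chain starting at `a`. -/
noncomputable def words (X : Finset (ℝ × ℝ)) (s : ℕ) (b c : ℝ × ℝ) :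
    ℕ → (ℝ × ℝ) → Finset (List (ℕ × ℕ))
  | 0, _ => {[]}
  | L + 1, a => (cand X s b c a).biUnion fun v =>
      (words X s b c L v).image fun l => (cnt X a v b, cnt X a v c) :: l

theorem card_words_le (X : Finset (ℝ × ℝ)) (s : ℕ) (b c : ℝ × ℝ) :
    ∀ (L : ℕ) (a : ℝ × ℝ), (words X s b c L a).card ≤ (4 * s) ^ L := by
  classical
  intro L
  induction L with
  | zero => intro a; simp [words]
  | succ L ih =>
    intro a
    rw [words]
    calc ((cand X s b c a).biUnion fun v =>
          (words X s b c L v).image fun l => (cnt X a v b, cnt X a v c) :: l).card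
        ≤ ∑ v ∈ cand X s b c a, ((words X s b c L v).image
            fun l => (cnt X a v b, cnt X a v c) :: l).card := Finset.card_biUnion_le
      _ ≤ ∑ v ∈ cand X s b c a, (4 * s) ^ L :=
          Finset.sum_le_sum fun v _ => Finset.card_image_le.trans (ih v)
      _ = (cand X s b c a).card * (4 * s) ^ L := by rw [Finset.sum_const, smul_eq_mul]
      _ ≤ (4 * s) * (4 * s) ^ L := Nat.mul_le_mul_right _ (card_cand_le X s b c a)
      _ = (4 * s) ^ (L + 1) := by rw [pow_succ]; ring

theorem mem_words (X : Finset (ℝ × ℝ)) (s : ℕ) (b c : ℝ × ℝ) :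
    ∀ (L : ℕ) (a : ℕ → ℝ × ℝ), (∀ i < L, a (i + 1) ∈ cand X s b c (a i)) →
      List.ofFn (fun i : Fin L => (cnt X (a i) (a (i + 1)) b, cnt X (a i) (a (i + 1)) c)) ∈
        words X s b c L (a 0) := by
  classical
  intro L
  induction L with
  | zero => intro a _; simp [words]
  | succ L ih =>
    intro a ha
    rw [List.ofFn_succ, words, Finset.mem_biUnion]
    refine ⟨a 1, ha 0 (by omega), ?_⟩
    rw [Finset.mem_image]
    refine ⟨_, ih (fun i => a (i + 1)) (fun i hi => ha (i + 1) (by omega)), ?_⟩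
    simp

open Classical in
/-- All words of length `L` that can be read off `X`. -/
noncomputable def allWords (X : Finset (ℝ × ℝ)) (s L : ℕ) : Finset (List (ℕ × ℕ)) :=
  (X ×ˢ X ×ˢ X).biUnion fun q => words X s q.1 q.2.1 L q.2.2

theorem card_allWords_le (X : Finset (ℝ × ℝ)) (s L : ℕ) :
    (allWords X s L).card ≤ X.card ^ 3 * (4 * s) ^ L := by
  classical
  rw [allWords]
  calc _ ≤ ∑ q ∈ X ×ˢ X ×ˢ X, (words X s q.1 q.2.1 L q.2.2).card := Finset.card_biUnion_le
    _ ≤ ∑ q ∈ X ×ˢ X ×ˢ X, (4 * s) ^ L :=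
        Finset.sum_le_sum fun q _ => card_words_le X s q.1 q.2.1 L q.2.2
    _ = X.card ^ 3 * (4 * s) ^ L := by
        rw [Finset.sum_const, smul_eq_mul, Finset.card_product, Finset.card_product]; ring

theorem mem_allWords {X : Finset (ℝ × ℝ)} {s L : ℕ} {b c : ℝ × ℝ} (hb : b ∈ X) (hc : c ∈ X)
    (a : ℕ → ℝ × ℝ) (ha0 : a 0 ∈ X) (ha : ∀ i < L, a (i + 1) ∈ cand X s b c (a i)) :
    List.ofFn (fun i : Fin L => (cnt X (a i) (a (i + 1)) b, cnt X (a i) (a (i + 1)) c)) ∈
      allWords X s L := by
  classical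
  rw [allWords, Finset.mem_biUnion]
  exact ⟨(b, c, a 0), by simp [hb, hc, ha0], mem_words X s b c L a ha⟩

end Pool.Agent.H42.UP
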