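import Mathlib

/-!
# Definitions: straight-line drawings, universal configurations and obstacles
-/

namespace Pool.Agent.H42.UP

/-- `IsDrawing G f`: the map `f` is a planar straight-line drawing of the graph `G`. The vertices
are placed injectively, no closed segment representing an edge passes through the image of a vertex
other than its own endpoints, and the closed segments of two different edges meet only in the image
of a common endpoint. -/
structure IsDrawing {V : Type*} (G : SimpleGraph V) (f : V → ℝ × ℝ) : Prop where
  inj : Function.Injective f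
  vertex_off : ∀ u v w, G.Adj u v → w ≠ u → w ≠ v → f w ∉ segment ℝ (f u) (f v)
  edges_meet : ∀ u v x y, G.Adj u v → G.Adj x y → s(u, v) ≠ s(x, y) →
    ∀ p, p ∈ segment ℝ (f u) (f v) → p ∈ segment ℝ (f x) (f y) →
      ∃ w, (w = u ∨ w = v) ∧ (w = x ∨ w = y) ∧ p = f w

/-- A graph is planar if it has a planar straight-line drawing (by the theorem of Fary this is the
usual notion of planarity for finite simple graphs). -/
def IsPlanar {V : Type*} (G : SimpleGraph V) : Prop := ∃ f : V → ℝ × ℝ, IsDrawing G f

/-- The configuration `S` supports `G`: there is a planar straight-line drawing of `G` with all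
vertex images in `S`. -/
def Supports {V : Type*} (S : Finset (ℝ × ℝ)) (G : SimpleGraph V) : Prop :=
  ∃ f : V → ℝ × ℝ, IsDrawing G f ∧ ∀ v, f v ∈ S

/-- `S` is universal for the `n`-vertex planar graphs: it supports each planar graph with `n` or
fewer vertices. -/
def IsUniversal (S : Finset (ℝ × ℝ)) (n : ℕ) : Prop :=
  ∀ m ≤ n, ∀ G : SimpleGraph (Fin m), IsPlanar G → Supports S G

/-- `S` is an obstacle for `UNIVERSAL(S) < k`: it is universal for the `k`-vertex planar graphs,
and no proper subset of it is. -/
def IsObstacle (k : ℕ) (S : Finset (ℝ × ℝ)) : Prop :=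
  IsUniversal S k ∧ ∀ T, T ⊂ S → ¬ IsUniversal T k

end Pool.Agent.H42.UP
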