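import Pool.Agent.H42.UP.Geom

/-!
# Triangles and complete graphs on four vertices in straight-line drawings
-/

namespace Pool.Agent.H42.UP

variable {V : Type*} {G : SimpleGraph V} {f : V → ℝ × ℝ}

/-- Triangles of a drawing are nondegenerate. -/
theorem IsDrawing.det_ne (h : IsDrawing G f) {x y z : V} (hxy : G.Adj x y) (hyz : G.Adj y z)
    (hxz : G.Adj x z) : det (f x) (f y) (f z) ≠ 0 := by
  intro h0
  rcases collinear_cases h0 with h1 | h1 | h1
  · exact h.vertex_off y z x hyz hxy.ne hxz.ne h1
  · exact h.vertex_off x z y hxz hxy.symm.ne hyz.ne h1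
  · exact h.vertex_off x y z hxy hxz.symm.ne hyz.symm.ne h1

theorem IsDrawing.no_cross (h : IsDrawing G f) {u v x y : V} (huv : G.Adj u v) (hxy : G.Adj x y)
    (h1 : u ≠ x) (h2 : u ≠ y) (h3 : v ≠ x) (h4 : v ≠ y) {p : ℝ × ℝ}
    (hp : p ∈ segment ℝ (f u) (f v)) (hq : p ∈ segment ℝ (f x) (f y)) : False := by
  have hne : s(u, v) ≠ s(x, y) := by
    intro he
    rw [Sym2.eq_iff] at he
    rcases he with he | he
    · exact h1 he.1
    · exact h2 he.1
  obtain ⟨w, hw1, hw2, -⟩ := h.edges_meet u v x y huv hxy hne p hp hq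
  rcases hw1 with rfl | rfl <;> rcases hw2 with hw | hw
  · exact h1 hw
  · exact h2 hw
  · exact h3 hw
  · exact h4 hw

/-- An edge disjoint from a triangle of the drawing does not cross its boundary. -/
theorem IsDrawing.inTri_of_adj (h : IsDrawing G f) {x y z u v : V} (hxy : G.Adj x y)
    (hyz : G.Adj y z) (hxz : G.Adj x z) (huv : G.Adj u v) (hux : u ≠ x) (huy : u ≠ y) (huz : u ≠ z)
    (hvx : v ≠ x) (hvy : v ≠ y) (hvz : v ≠ z) (hin : InTri (f x) (f y) (f z) (f u)) :
    InTri (f x) (f y) (f z) (f v) := by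
  have hdet := h.det_ne hxy hyz hxz
  obtain ⟨α, β, γ, h1, h2, h3, h4, h5⟩ := hin
  obtain ⟨a, b, c, k4, k5⟩ := bary_exists hdet (f v)
  -- auxiliary: at the first time a coordinate vanishes we cross an edge
  have key : ∀ (x y z : V) (α β γ a b c : ℝ), G.Adj y z → u ≠ y → u ≠ z → v ≠ y → v ≠ z →
      0 < α → 0 < β → 0 < γ → α + β + γ = 1 → f u = α • f x + β • f y + γ • f z →
      a + b + c = 1 → f v = a • f x + b • f y + c • f z → a ≤ 0 →
      a * β ≤ b * α → a * γ ≤ c * α → False := by
    intro x y z α β γ a b c hyz huy huz hvy hvz h1 h2 h3 h4 h5 k4 k5 ha hab hac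
    have hpos : 0 < α - a := by linarith
    -- the point at parameter t = α / (α - a)
    have hp1 : (α - a)⁻¹ • ((-a) • f u + α • f v) ∈ segment ℝ (f u) (f v) := by
      refine mem_seg_of (-a) α (by linarith) h1.le (by linarith) ?_
      rw [show -a + α = α - a by ring, smul_smul, mul_inv_cancel₀ (ne_of_gt hpos), one_smul]
    have hp2 : (α - a)⁻¹ • ((-a) • f u + α • f v) ∈ segment ℝ (f y) (f z) := by
      refine mem_seg_of (α * b - a * β) (α * c - a * γ) (by linarith) (by linarith) ?_ ?_
      · have : α * b - a * β + (α * c - a * γ) = α - a := by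
          have e1 : b + c = 1 - a := by linarith
          have e2 : β + γ = 1 - α := by linarith
          nlinarith
        rw [this]; exact hpos
      · have e0 : α * b - a * β + (α * c - a * γ) = α - a := by
          have e1 : b + c = 1 - a := by linarith
          have e2 : β + γ = 1 - α := by linarith
          nlinarith
        rw [e0, smul_smul, mul_inv_cancel₀ (ne_of_gt hpos), one_smul, h5, k5]
        ext
        · simp only [Prod.fst_add, Prod.smul_fst, smul_eq_mul]; ring
        · simp only [Prod.snd_add, Prod.smul_snd, smul_eq_mul]; ring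
    exact h.no_cross huv hyz huy huz hvy hvz hp1 hp2
  by_contra hcon
  have hneg : a ≤ 0 ∨ b ≤ 0 ∨ c ≤ 0 := by
    by_contra hh
    push Not at hh
    exact hcon ⟨a, b, c, hh.1, hh.2.1, hh.2.2, k4, k5⟩
  -- choose the coordinate minimising a/α
  rcases le_total (a * β) (b * α) with hab | hab
  · rcases le_total (a * γ) (c * α) with hac | hac
    · have ha : a ≤ 0 := by
        rcases hneg with h0 | h0 | h0
        · exact h0
        · by_contra hc; push Not at hc
          nlinarith [mul_pos hc h2, mul_nonneg (neg_nonneg.2 h0) h1.le]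
        · by_contra hc; push Not at hc
          nlinarith [mul_pos hc h3, mul_nonneg (neg_nonneg.2 h0) h1.le]
      exact key x y z α β γ a b c hyz huy huz hvy hvz h1 h2 h3 h4 h5 k4 k5 ha hab hac
    · have hcb : c * β ≤ b * γ := by
        have h8 : (c * β) * α ≤ (b * γ) * α := by nlinarith
        exact le_of_mul_le_mul_right h8 h1
      have hc0 : c ≤ 0 := by
        rcases hneg with h0 | h0 | h0
        · by_contra hc; push Not at hc
          nlinarith [mul_pos hc h1, mul_nonneg (neg_nonneg.2 h0) h3.le]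
        · by_contra hc; push Not at hc
          nlinarith [mul_pos hc h2, mul_nonneg (neg_nonneg.2 h0) h3.le]
        · exact h0
      exact key z x y γ α β c a b hxy hux huy hvx hvy h3 h1 h2 (by linarith)
        (by rw [h5]; abel) (by linarith) (by rw [k5]; abel) hc0 (by linarith) hcb
  · rcases le_total (b * γ) (c * β) with hbc | hbc
    · have hb0 : b ≤ 0 := by
        rcases hneg with h0 | h0 | h0
        · by_contra hc; push Not at hc
          nlinarith [mul_pos hc h1, mul_nonneg (neg_nonneg.2 h0) h2.le]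
        · exact h0
        · by_contra hc; push Not at hc
          nlinarith [mul_pos hc h3, mul_nonneg (neg_nonneg.2 h0) h2.le]
      exact key y z x β γ α b c a hxz.symm huz hux hvz hvx h2 h3 h1 (by linarith)
        (by rw [h5]; abel) (by linarith) (by rw [k5]; abel) hb0 hbc hab
    · have hca : c * α ≤ a * γ := by
        have h8 : (c * α) * β ≤ (a * γ) * β := by nlinarith
        exact le_of_mul_le_mul_right h8 h2
      have hc0 : c ≤ 0 := by
        rcases hneg with h0 | h0 | h0
        · by_contra hc; push Not at hc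
          nlinarith [mul_pos hc h1, mul_nonneg (neg_nonneg.2 h0) h3.le]
        · by_contra hc; push Not at hc
          nlinarith [mul_pos hc h2, mul_nonneg (neg_nonneg.2 h0) h3.le]
        · exact h0
      exact key z x y γ α β c a b hxy hux huy hvx hvy h3 h1 h2 (by linarith)
        (by rw [h5]; abel) (by linarith) (by rw [k5]; abel) hc0 hca (by linarith)

/-- The two ways in which a triangle and an inside vertex exclude each other. -/
theorem IsDrawing.excl (h : IsDrawing G f) {x y z v : V} (hyz : G.Adj y z) (hvy : v ≠ y)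
    (hvz : v ≠ z) (h1 : InTri (f x) (f y) (f z) (f v)) (h2 : InTri (f v) (f y) (f z) (f x)) :
    False :=
  h.vertex_off y z v hyz hvy hvz (h1.exclusive h2)

/-- A complete graph on four vertices has a vertex inside the triangle of the other three. -/
theorem IsDrawing.four (h : IsDrawing G f) {a b c d : V} (hab : G.Adj a b) (hac : G.Adj a c)
    (had : G.Adj a d) (hbc : G.Adj b c) (hbd : G.Adj b d) (hcd : G.Adj c d) :
    InTri (f b) (f c) (f d) (f a) ∨ InTri (f a) (f c) (f d) (f b) ∨
      InTri (f a) (f b) (f d) (f c) ∨ InTri (f a) (f b) (f c) (f d) := by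
  have inner : ∀ (p q r s : ℝ × ℝ) (lp lq lr ls : ℝ), 0 < lp → lq < 0 → lr < 0 → ls < 0 →
      lp + lq + lr + ls = 0 → lp • p + lq • q + lr • r + ls • s = 0 → InTri q r s p := by
    intro p q r s lp lq lr ls hp hq hr hs hsum hvec
    refine ⟨-lq / lp, -lr / lp, -ls / lp, div_pos (by linarith) hp, div_pos (by linarith) hp,
      div_pos (by linarith) hp, ?_, ?_⟩
    · field_simp; linarith
    · have e1 := congrArg Prod.fst hvec
      have e2 := congrArg Prod.snd hvec
      simp only [Prod.fst_add, Prod.smul_fst, smul_eq_mul, Prod.snd_add, Prod.smul_snd,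
        Prod.fst_zero, Prod.snd_zero] at e1 e2
      ext
      · simp only [Prod.fst_add, Prod.smul_fst, smul_eq_mul]; field_simp; linarith
      · simp only [Prod.snd_add, Prod.smul_snd, smul_eq_mul]; field_simp; linarith
  have cross : ∀ (p q r s : V) (lp lq lr ls : ℝ), G.Adj p q → G.Adj r s → p ≠ r → p ≠ s → q ≠ r →
      q ≠ s → 0 < lp → 0 < lq → lr < 0 → ls < 0 →
      lp + lq + lr + ls = 0 → lp • f p + lq • f q + lr • f r + ls • f s = 0 → False := by
    intro p q r s lp lq lr ls hpq hrs n1 n2 n3 n4 hp hq hr hs hsum hvec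
    have hpos : 0 < lp + lq := by linarith
    have m1 : (lp + lq)⁻¹ • (lp • f p + lq • f q) ∈ segment ℝ (f p) (f q) := by
      refine mem_seg_of lp lq hp.le hq.le hpos ?_
      rw [smul_smul, mul_inv_cancel₀ (ne_of_gt hpos), one_smul]
    have m2 : (lp + lq)⁻¹ • (lp • f p + lq • f q) ∈ segment ℝ (f r) (f s) := by
      refine mem_seg_of (-lr) (-ls) (by linarith) (by linarith) (by linarith) ?_
      rw [show -lr + -ls = lp + lq by linarith, smul_smul, mul_inv_cancel₀ (ne_of_gt hpos),
        one_smul]
      have : lp • f p + lq • f q + (lr • f r + ls • f s) = 0 := by rw [← hvec]; abel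
      rw [neg_smul, neg_smul, eq_comm]
      rw [add_eq_zero_iff_eq_neg] at this
      rw [this]; abel
    exact h.no_cross hpq hrs n1 n2 n3 n4 m1 m2
  -- the affine dependence
  set l1 := det (f b) (f c) (f d) with hl1
  set l2 := -det (f a) (f c) (f d) with hl2
  set l3 := det (f a) (f b) (f d) with hl3
  set l4 := -det (f a) (f b) (f c) with hl4
  have n1 : l1 ≠ 0 := h.det_ne hbc hcd hbd
  have n2 : l2 ≠ 0 := neg_ne_zero.2 (h.det_ne hac hcd had)
  have n3 : l3 ≠ 0 := h.det_ne hab hbd had
  have n4 : l4 ≠ 0 := neg_ne_zero.2 (h.det_ne hab hbc hac)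
  have hsum : l1 + l2 + l3 + l4 = 0 := by
    rw [hl1, hl2, hl3, hl4]; unfold det; ring
  have hvec : l1 • f a + l2 • f b + l3 • f c + l4 • f d = 0 := by
    rw [hl1, hl2, hl3, hl4]; unfold det
    ext
    · simp only [Prod.fst_add, Prod.smul_fst, smul_eq_mul, Prod.fst_zero]; ring
    · simp only [Prod.snd_add, Prod.smul_snd, smul_eq_mul, Prod.snd_zero]; ring
  clear_value l1 l2 l3 l4
  have hvec' : (-l1) • f a + (-l2) • f b + (-l3) • f c + (-l4) • f d = 0 := by
    have : (-l1) • f a + (-l2) • f b + (-l3) • f c + (-l4) • f d =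
        -(l1 • f a + l2 • f b + l3 • f c + l4 • f d) := by
      simp only [neg_smul]; abel
    rw [this, hvec, neg_zero]
  rcases lt_or_gt_of_ne n1 with s1 | s1 <;> rcases lt_or_gt_of_ne n2 with s2 | s2 <;>
    rcases lt_or_gt_of_ne n3 with s3 | s3 <;> rcases lt_or_gt_of_ne n4 with s4 | s4
  · exfalso; linarith
  · right; right; right
    exact inner (f d) (f a) (f b) (f c) l4 l1 l2 l3 s4 s1 s2 s3 (by linarith)
      (by rw [← hvec]; abel)
  · right; right; left
    exact inner (f c) (f a) (f b) (f d) l3 l1 l2 l4 s3 s1 s2 s4 (by linarith)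
      (by rw [← hvec]; abel)
  · exact (cross c d a b l3 l4 l1 l2 hcd hab hac.symm.ne hbc.symm.ne had.symm.ne hbd.symm.ne s3 s4
      s1 s2 (by linarith) (by rw [← hvec]; abel)).elim
  · right; left
    exact inner (f b) (f a) (f c) (f d) l2 l1 l3 l4 s2 s1 s3 s4 (by linarith)
      (by rw [← hvec]; abel)
  · exact (cross b d a c l2 l4 l1 l3 hbd hac hab.symm.ne hbc.ne had.symm.ne hcd.symm.ne s2 s4 s1 s3
      (by linarith) (by rw [← hvec]; abel)).elim
  · exact (cross b c a d l2 l3 l1 l4 hbc had hab.symm.ne hbd.ne hac.symm.ne hcd.ne s2 s3 s1 s4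
      (by linarith) (by rw [← hvec]; abel)).elim
  · left
    exact inner (f a) (f b) (f c) (f d) (-l1) (-l2) (-l3) (-l4) (by linarith) (by linarith)
      (by linarith) (by linarith) (by linarith) hvec'
  · left
    exact inner (f a) (f b) (f c) (f d) l1 l2 l3 l4 s1 s2 s3 s4 hsum hvec
  · exact (cross a d b c l1 l4 l2 l3 had hbc hab.ne hac.ne hbd.symm.ne hcd.symm.ne s1 s4 s2 s3
      (by linarith) (by rw [← hvec]; abel)).elim
  · exact (cross a c b d l1 l3 l2 l4 hac hbd hab.ne had.ne hbc.symm.ne hcd.ne s1 s3 s2 s4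
      (by linarith) (by rw [← hvec]; abel)).elim
  · right; left
    exact inner (f b) (f a) (f c) (f d) (-l2) (-l1) (-l3) (-l4) (by linarith) (by linarith)
      (by linarith) (by linarith) (by linarith) (by rw [← hvec']; abel)
  · exact (cross a b c d l1 l2 l3 l4 hab hcd hac.ne had.ne hbc.ne hbd.ne s1 s2 s3 s4
      (by linarith) (by rw [← hvec])).elim
  · right; right; left
    exact inner (f c) (f a) (f b) (f d) (-l3) (-l1) (-l2) (-l4) (by linarith) (by linarith)
      (by linarith) (by linarith) (by linarith) (by rw [← hvec']; abel)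
  · right; right; right
    exact inner (f d) (f a) (f b) (f c) (-l4) (-l1) (-l2) (-l3) (by linarith) (by linarith)
      (by linarith) (by linarith) (by linarith) (by rw [← hvec']; abel)
  · exfalso; linarith

/-- Two vertices adjacent to all three vertices of a triangle are not both inside it. -/
theorem IsDrawing.not_both (h : IsDrawing G f) {x y z u v : V} (hxy : G.Adj x y) (hyz : G.Adj y z)
    (hxz : G.Adj x z) (hux : G.Adj u x) (huy : G.Adj u y) (huz : G.Adj u z) (hvx : G.Adj v x)
    (hvy : G.Adj v y) (hvz : G.Adj v z) (huv : u ≠ v) (h1 : InTri (f x) (f y) (f z) (f u))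
    (h2 : InTri (f x) (f y) (f z) (f v)) : False := by
  have s := h1.subdiv h2 (h.vertex_off u x v hux huv.symm hvx.ne)
    (h.vertex_off u y v huy huv.symm hvy.ne) (h.vertex_off u z v huz huv.symm hvz.ne)
  rcases s with s | s | s
  · have := h.inTri_of_adj huy hyz huz hvx huv.symm hvy.ne hvz.ne hux.symm.ne hxy.ne hxz.ne s
    exact h.excl hyz huy.ne huz.ne h1 this
  · have := h.inTri_of_adj hux.symm huz hxz hvy hvx.ne huv.symm hvz.ne hxy.symm.ne huy.symm.ne
      hyz.ne s
    exact h.excl hxz hux.ne huz.ne h1.swap12 this.swap12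
  · have := h.inTri_of_adj hxy huy.symm hux.symm hvz hvx.ne hvy.ne huv.symm hxz.symm.ne
      hyz.symm.ne huz.symm.ne s
    exact h.excl hxy hux.ne huy.ne h1.rot' this.rot'

/-- Of two vertices adjacent to all three vertices of a triangle, at least one is inside it. -/
theorem IsDrawing.at_least_one (h : IsDrawing G f) {x y z u v : V} (hxy : G.Adj x y)
    (hyz : G.Adj y z) (hxz : G.Adj x z) (hux : G.Adj u x) (huy : G.Adj u y) (huz : G.Adj u z)
    (hvx : G.Adj v x) (hvy : G.Adj v y) (hvz : G.Adj v z) (huv : u ≠ v) :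
    InTri (f x) (f y) (f z) (f u) ∨ InTri (f x) (f y) (f z) (f v) := by
  by_contra hcon
  push Not at hcon
  obtain ⟨hu, hv⟩ := hcon
  -- auxiliary: if `x` is inside `u y z` then contradiction
  have key : ∀ x y z : V, G.Adj x y → G.Adj y z → G.Adj x z → G.Adj u x → G.Adj u y → G.Adj u z →
      G.Adj v x → G.Adj v y → G.Adj v z → ¬ InTri (f x) (f y) (f z) (f v) →
      InTri (f u) (f y) (f z) (f x) → False := by
    intro x y z hxy hyz hxz hux huy huz hvx hvy hvz hv hin
    have hv2 : InTri (f u) (f y) (f z) (f v) :=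
      h.inTri_of_adj huy hyz huz hvx.symm hux.symm.ne hxy.ne hxz.ne huv.symm hvy.ne hvz.ne hin
    have s := hin.subdiv hv2 (h.vertex_off x u v hux.symm hvx.ne huv.symm)
      (h.vertex_off x y v hxy hvx.ne hvy.ne) (h.vertex_off x z v hxz hvx.ne hvz.ne)
    rcases s with s | s | s
    · exact hv s
    · -- v inside u x z ; edge v y
      have := h.inTri_of_adj hux hxz huz hvy huv.symm hvx.ne hvz.ne huy.symm.ne hxy.symm.ne
        hyz.ne s
      exact h.excl huz hux.symm.ne hxz.ne hin.swap12 this.swap12
    · -- v inside u y x ; edge v z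
      have := h.inTri_of_adj huy hxy.symm hux hvz huv.symm hvy.ne hvx.ne huz.symm.ne hyz.symm.ne
        hxz.symm.ne s
      exact h.excl huy hux.symm.ne hxy.ne hin.rot' this.rot'
  rcases h.four hux huy huz hxy hxz hyz with h1 | h1 | h1 | h1
  · exact hu h1
  · exact key x y z hxy hyz hxz hux huy huz hvx hvy hvz hv h1
  · exact key y x z hxy.symm hxz hyz huy hux huz hvy hvx hvz (fun hh => hv hh.swap12) h1
  · exact key z x y hxz.symm hxy hyz.symm huz hux huy hvz hvx hvy (fun hh => hv hh.rot) h1

end Pool.Agent.H42.UP
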