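import Pool.Agent.H42.UP.Defs

/-!
# Plane geometry for straight-line drawings
-/

namespace Pool.Agent.H42.UP

/-- `p` lies strictly inside the triangle `x y z`. -/
def InTri (x y z p : ℝ × ℝ) : Prop :=
  ∃ α β γ : ℝ, 0 < α ∧ 0 < β ∧ 0 < γ ∧ α + β + γ = 1 ∧ p = α • x + β • y + γ • z

theorem InTri.swap12 {x y z p : ℝ × ℝ} (h : InTri x y z p) : InTri y x z p := by
  obtain ⟨α, β, γ, h1, h2, h3, h4, h5⟩ := h
  refine ⟨β, α, γ, h2, h1, h3, by linarith, ?_⟩
  rw [h5]; abel

theorem InTri.swap23 {x y z p : ℝ × ℝ} (h : InTri x y z p) : InTri x z y p := by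
  obtain ⟨α, β, γ, h1, h2, h3, h4, h5⟩ := h
  refine ⟨α, γ, β, h1, h3, h2, by linarith, ?_⟩
  rw [h5]; abel

theorem InTri.rot {x y z p : ℝ × ℝ} (h : InTri x y z p) : InTri y z x p :=
  h.swap12.swap23

theorem InTri.rot' {x y z p : ℝ × ℝ} (h : InTri x y z p) : InTri z x y p :=
  h.rot.rot

theorem InTri.swap13 {x y z p : ℝ × ℝ} (h : InTri x y z p) : InTri z y x p :=
  h.rot.swap12

/-- Twice the signed area. -/
def det (a b c : ℝ × ℝ) : ℝ := (b.1 - a.1) * (c.2 - a.2) - (b.2 - a.2) * (c.1 - a.1)

theorem mem_seg_of {x y p : ℝ × ℝ} (a b : ℝ) (ha : 0 ≤ a) (hb : 0 ≤ b) (hab : 0 < a + b)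
    (h : (a + b) • p = a • x + b • y) : p ∈ segment ℝ x y := by
  refine ⟨a / (a + b), b / (a + b), by positivity, by positivity, ?_, ?_⟩
  · field_simp
  · have h0 : a + b ≠ 0 := ne_of_gt hab
    have : p = (a + b)⁻¹ • ((a + b) • p) := by rw [smul_smul, inv_mul_cancel₀ h0, one_smul]
    rw [this, h, smul_add, smul_smul, smul_smul]
    congr 1 <;> · congr 1; field_simp

theorem collinear_cases {x y z : ℝ × ℝ} (h : det x y z = 0) :
    x ∈ segment ℝ y z ∨ y ∈ segment ℝ x z ∨ z ∈ segment ℝ x y := by
  by_cases hxy : x = y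
  · right; left; rw [hxy]; exact left_mem_segment ℝ y z
  · set d : ℝ := (y.1 - x.1) ^ 2 + (y.2 - x.2) ^ 2 with hd
    have hd0 : 0 < d := by
      by_contra hcon
      have h1 : (y.1 - x.1) ^ 2 = 0 := by nlinarith [sq_nonneg (y.1 - x.1), sq_nonneg (y.2 - x.2)]
      have h2 : (y.2 - x.2) ^ 2 = 0 := by nlinarith [sq_nonneg (y.1 - x.1), sq_nonneg (y.2 - x.2)]
      apply hxy
      ext
      · have := pow_eq_zero_iff (two_ne_zero) |>.1 h1; linarith
      · have := pow_eq_zero_iff (two_ne_zero) |>.1 h2; linarith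
    set t : ℝ := (z.1 - x.1) * (y.1 - x.1) + (z.2 - x.2) * (y.2 - x.2) with ht
    unfold det at h
    have e1 : d * (z.1 - x.1) = t * (y.1 - x.1) := by
      rw [hd, ht]; linear_combination (-(y.2 - x.2)) * h
    have e2 : d * (z.2 - x.2) = t * (y.2 - x.2) := by
      rw [hd, ht]; linear_combination (y.1 - x.1) * h
    rcases le_total t 0 with ht0 | ht0
    · left
      refine mem_seg_of (-t) d (by linarith) hd0.le (by linarith) ?_
      ext
      · simp only [Prod.smul_fst, Prod.fst_add, smul_eq_mul]; linarith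
      · simp only [Prod.smul_snd, Prod.snd_add, smul_eq_mul]; linarith
    · rcases le_total t d with htd | htd
      · right; right
        refine mem_seg_of (d - t) t (by linarith) ht0 (by linarith) ?_
        ext
        · simp only [Prod.smul_fst, Prod.fst_add, smul_eq_mul]; linarith
        · simp only [Prod.smul_snd, Prod.snd_add, smul_eq_mul]; linarith
      · right; left
        refine mem_seg_of (t - d) d (by linarith) hd0.le (by linarith) ?_
        ext
        · simp only [Prod.smul_fst, Prod.fst_add, smul_eq_mul]; linarith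
        · simp only [Prod.smul_snd, Prod.snd_add, smul_eq_mul]; linarith

/-- Existence of barycentric coordinates. -/
theorem bary_exists {x y z : ℝ × ℝ} (h : det x y z ≠ 0) (p : ℝ × ℝ) :
    ∃ α β γ : ℝ, α + β + γ = 1 ∧ p = α • x + β • y + γ • z := by
  refine ⟨det p y z / det x y z, det x p z / det x y z, det x y p / det x y z, ?_, ?_⟩
  · field_simp
    unfold det; ring
  · ext
    · simp only [Prod.fst_add, Prod.smul_fst, smul_eq_mul]
      field_simp
      unfold det; ring
    · simp only [Prod.snd_add, Prod.smul_snd, smul_eq_mul]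
      field_simp
      unfold det; ring

/-- Uniqueness of barycentric coordinates. -/
theorem bary_unique {x y z : ℝ × ℝ} (h : det x y z ≠ 0) {α β γ α' β' γ' : ℝ}
    (h1 : α + β + γ = 1) (h2 : α' + β' + γ' = 1)
    (h3 : α • x + β • y + γ • z = α' • x + β' • y + γ' • z) : α = α' ∧ β = β' ∧ γ = γ' := by
  have e1 := congrArg Prod.fst h3
  have e2 := congrArg Prod.snd h3
  simp only [Prod.fst_add, Prod.smul_fst, smul_eq_mul, Prod.snd_add, Prod.smul_snd] at e1 e2
  have ka : (α - α') * det x y z = 0 := by
    unfold det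
    linear_combination (y.2 - z.2) * e1 - (y.1 - z.1) * e2 + (y.1 * z.2 - y.2 * z.1) * (h1 - h2)
  have kb : (β - β') * det x y z = 0 := by
    unfold det
    linear_combination (z.2 - x.2) * e1 - (z.1 - x.1) * e2 + (z.1 * x.2 - z.2 * x.1) * (h1 - h2)
  have kc : (γ - γ') * det x y z = 0 := by
    unfold det
    linear_combination (x.2 - y.2) * e1 - (x.1 - y.1) * e2 + (x.1 * y.2 - x.2 * y.1) * (h1 - h2)
  refine ⟨?_, ?_, ?_⟩
  · have := (mul_eq_zero.1 ka).resolve_right h; linarith
  · have := (mul_eq_zero.1 kb).resolve_right h; linarith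
  · have := (mul_eq_zero.1 kc).resolve_right h; linarith

/-- If `v` is inside `x y z` and `x` is inside `v y z`, then `v` lies on `y z`. -/
theorem InTri.exclusive {x y z v : ℝ × ℝ} (h : InTri x y z v) (h' : InTri v y z x) :
    v ∈ segment ℝ y z := by
  obtain ⟨α, β, γ, h1, h2, h3, h4, h5⟩ := h
  obtain ⟨α', β', γ', k1, k2, k3, k4, k5⟩ := h'
  have hα : α < 1 := by linarith
  have hα' : α' < 1 := by linarith
  have hm : α * α' < 1 := by nlinarith
  refine mem_seg_of (α * β' + β) (α * γ' + γ) (by positivity) (by positivity) (by positivity) ?_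
  have hs : α * β' + β + (α * γ' + γ) = 1 - α * α' := by
    have : β' + γ' = 1 - α' := by linarith
    have : β + γ = 1 - α := by linarith
    nlinarith
  rw [hs]
  have e : v = (α * α') • v + ((α * β' + β) • y + (α * γ' + γ) • z) := by
    conv_lhs => rw [h5, k5]
    ext
    · simp only [Prod.fst_add, Prod.smul_fst, smul_eq_mul]; ring
    · simp only [Prod.snd_add, Prod.smul_snd, smul_eq_mul]; ring
  rw [sub_smul, one_smul]
  nth_rewrite 1 [e]
  abel

/-- A point inside a triangle is inside one of the three subtriangles determined by another inside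
point, or on one of the three spokes. -/
theorem InTri.subdiv {x y z u v : ℝ × ℝ} (hu : InTri x y z u) (hv : InTri x y z v)
    (hx : v ∉ segment ℝ u x) (hy : v ∉ segment ℝ u y) (hz : v ∉ segment ℝ u z) :
    InTri u y z v ∨ InTri x u z v ∨ InTri x y u v := by
  obtain ⟨α, β, γ, h1, h2, h3, h4, h5⟩ := hu
  obtain ⟨a, b, c, k1, k2, k3, k4, k5⟩ := hv
  have key : ∀ (x y z : ℝ × ℝ) (α β γ a b c : ℝ), 0 < α → 0 < β → 0 < γ → α + β + γ = 1 →
      u = α • x + β • y + γ • z → 0 < a → 0 < b → 0 < c → a + b + c = 1 →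
      v = a • x + b • y + c • z → v ∉ segment ℝ u y → v ∉ segment ℝ u z →
      a * β ≤ b * α → a * γ ≤ c * α → InTri u y z v := by
    intro x y z α β γ a b c h1 h2 h3 h4 h5 k1 k2 k3 k4 k5 hy hz hab hac
    have e : v = (a / α) • u + (b - a * β / α) • y + (c - a * γ / α) • z := by
      rw [k5, h5]
      ext
      · simp only [Prod.fst_add, Prod.smul_fst, smul_eq_mul]; field_simp; ring
      · simp only [Prod.snd_add, Prod.smul_snd, smul_eq_mul]; field_simp; ring
    have s : a / α + (b - a * β / α) + (c - a * γ / α) = 1 := by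
      field_simp
      have : γ = 1 - α - β := by linarith
      have : c = 1 - a - b := by linarith
      subst_vars
      nlinarith
    have hb0 : 0 ≤ b - a * β / α := by
      rw [sub_nonneg, div_le_iff₀ h1]; linarith
    have hc0 : 0 ≤ c - a * γ / α := by
      rw [sub_nonneg, div_le_iff₀ h1]; linarith
    have ha0 : 0 < a / α := by positivity
    refine ⟨a / α, b - a * β / α, c - a * γ / α, ha0, ?_, ?_, s, e⟩
    · rcases hb0.lt_or_eq with h | h
      · exact h
      · exfalso
        apply hz
        refine ⟨a / α, c - a * γ / α, ha0.le, hc0, by linarith, ?_⟩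
        rw [← h, zero_smul, add_zero] at e
        exact e.symm
    · rcases hc0.lt_or_eq with h | h
      · exact h
      · exfalso
        apply hy
        refine ⟨a / α, b - a * β / α, ha0.le, hb0, by linarith, ?_⟩
        rw [← h, zero_smul, add_zero] at e
        exact e.symm
  rcases le_total (a * β) (b * α) with hab | hab
  · rcases le_total (a * γ) (c * α) with hac | hac
    · left
      exact key x y z α β γ a b c h1 h2 h3 h4 h5 k1 k2 k3 k4 k5 hy hz hab hac
    · right; right
      -- c is minimal
      have hcb : c * β ≤ b * γ := by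
        have h6 : c * α * β ≤ a * γ * β := by nlinarith
        have h7 : a * β * γ ≤ b * α * γ := by nlinarith
        have h8 : (c * β) * α ≤ (b * γ) * α := by nlinarith
        exact le_of_mul_le_mul_right h8 h1
      have := key z x y γ α β c a b h3 h1 h2 (by linarith) (by rw [h5]; abel) k3 k1 k2
        (by linarith) (by rw [k5]; abel) hx hy (by linarith) hcb
      exact this.rot
  · rcases le_total (b * γ) (c * β) with hbc | hbc
    · right; left
      have hba : b * α ≤ a * β := hab
      have := key y z x β γ α b c a h2 h3 h1 (by linarith) (by rw [h5]; abel) k2 k3 k1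
        (by linarith) (by rw [k5]; abel) hz hx hbc hba
      exact this.rot'
    · right; right
      have hca : c * α ≤ a * γ := by
        have h8 : (c * α) * β ≤ (a * γ) * β := by nlinarith
        exact le_of_mul_le_mul_right h8 h2
      have := key z x y γ α β c a b h3 h1 h2 (by linarith) (by rw [h5]; abel) k3 k1 k2
        (by linarith) (by rw [k5]; abel) hx hy hca (by linarith)
      exact this.rot

end Pool.Agent.H42.UP
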