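import Pool.Agent.H42.UP.ChainGraph
import Pool.Agent.H42.UP.Cluster

/-!
# Minimal universal configurations of exponential size
-/

namespace Pool.Agent.H42.UP

open Finset

/-! ### Universality for graphs on arbitrary finite types -/

theorem IsUniversal.supports {T : Finset (ℝ × ℝ)} {K : ℕ} (h : IsUniversal T K) {V : Type}
    [Fintype V] (G : SimpleGraph V) (hV : Fintype.card V ≤ K) (hG : IsPlanar G) :
    Supports T G := by
  let e := Fintype.equivFin V
  let G' : SimpleGraph (Fin (Fintype.card V)) := G.comap e.symm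
  have hG' : IsPlanar G' := by
    obtain ⟨f, hf⟩ := hG
    exact ⟨f ∘ e.symm, hf.comap e.symm e.symm.injective fun x y hxy => hxy⟩
  obtain ⟨f, hf, hfT⟩ := h _ hV G' hG'
  refine ⟨f ∘ e, hf.comap e e.injective fun x y hxy => ?_, fun v => hfT _⟩
  show G.Adj (e.symm (e x)) (e.symm (e y))
  rw [e.symm_apply_apply, e.symm_apply_apply]
  exact hxy

/-! ### Subsets of bounded size -/

/-- Subsets of `T` with at most `n` elements. -/
def small (T : Finset (ℝ × ℝ)) (n : ℕ) : Finset (Finset (ℝ × ℝ)) :=
  T.powerset.filter fun A => A.card ≤ n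

theorem card_small_le (T : Finset (ℝ × ℝ)) (n : ℕ) : (small T n).card ≤ (T.card + 1) ^ n := by
  classical
  induction n with
  | zero =>
    have : small T 0 ⊆ {∅} := by
      intro A hA
      rw [small, mem_filter] at hA
      rw [mem_singleton]
      exact card_eq_zero.1 (by omega)
    have := card_le_card this
    simpa using this
  | succ n ih =>
    have hsub : small T (n + 1) ⊆ (small T n) ∪
        ((T ×ˢ small T n).image fun r => insert r.1 r.2) := by
      intro A hA
      rw [small, mem_filter, mem_powerset] at hA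
      rw [mem_union]
      by_cases hc : A.card ≤ n
      · left; rw [small, mem_filter, mem_powerset]; exact ⟨hA.1, hc⟩
      · right
        have hpos : 0 < A.card := by omega
        obtain ⟨x, hx⟩ := card_pos.1 hpos
        rw [mem_image]
        refine ⟨(x, A.erase x), ?_, insert_erase hx⟩
        rw [mem_product]
        refine ⟨hA.1 hx, ?_⟩
        rw [small, mem_filter, mem_powerset]
        exact ⟨(erase_subset _ _).trans hA.1, by rw [card_erase_of_mem hx]; omega⟩
    calc (small T (n + 1)).card ≤ _ := card_le_card hsub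
      _ ≤ (small T n).card + ((T ×ˢ small T n).image fun r => insert r.1 r.2).card :=
          card_union_le _ _
      _ ≤ (small T n).card + (T ×ˢ small T n).card := Nat.add_le_add_left card_image_le _
      _ = (T.card + 1) * (small T n).card := by rw [card_product]; ring
      _ ≤ (T.card + 1) * (T.card + 1) ^ n := Nat.mul_le_mul_left _ ih
      _ = (T.card + 1) ^ (n + 1) := by rw [pow_succ]; ring

/-! ### The family of graphs -/

/-- Fan sizes attached to a word. -/
def fanSize (L : ℕ) (a : Fin L → ℕ) (j : ℕ) : ℕ :=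
  if h : j < L then a ⟨L - 1 - j, by omega⟩ else if h' : j < 2 * L then a ⟨j - L, by omega⟩ else 0

theorem fanSize_right {L : ℕ} (a : Fin L → ℕ) (i : Fin L) : fanSize L a (L + i) = a i := by
  have := i.2
  rw [fanSize, dif_neg (by omega), dif_pos (by omega)]
  congr 1
  exact Fin.ext (by simp)

theorem fanSize_left {L : ℕ} (a : Fin L → ℕ) (i : Fin L) : fanSize L a (L - 1 - i) = a i := by
  have := i.2
  rw [fanSize, dif_pos (by omega)]
  congr 1
  apply Fin.ext
  show L - 1 - (L - 1 - (i : ℕ)) = i
  omega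

theorem fanSize_lt {L s : ℕ} (a : Fin L → ℕ) (ha : ∀ i, a i < s) (hs : 0 < s) (j : ℕ) :
    fanSize L a j < s := by
  rw [fanSize]; split_ifs
  · exact ha _
  · exact ha _
  · exact hs

theorem fanSize_zero {L : ℕ} (a : Fin L → ℕ) {j : ℕ} (hj : 2 * L ≤ j) : fanSize L a j = 0 := by
  rw [fanSize, dif_neg (by omega), dif_neg (by omega)]

/-- The number of steps that makes the number of vertices equal to `K`. -/
def steps (K L : ℕ) (P Q : ℕ → ℕ) : ℕ :=
  K - 3 - ∑ j ∈ range (2 * L), P j - ∑ j ∈ range (2 * L), Q j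

theorem card_family {K L : ℕ} (hK : 30 * L + 3 ≤ K) (a a' : Fin L → ℕ) (ha : ∀ i, a i < 8)
    (ha' : ∀ i, a' i < 8) :
    2 * L ≤ steps K L (fanSize L a) (fanSize L a') ∧
    (Vtx.verts (steps K L (fanSize L a) (fanSize L a')) (fanSize L a) (fanSize L a')).card = K := by
  have b1 : ∑ j ∈ range (2 * L), fanSize L a j ≤ 14 * L := by
    calc ∑ j ∈ range (2 * L), fanSize L a j ≤ ∑ j ∈ range (2 * L), 7 :=
          sum_le_sum fun j _ => by have := fanSize_lt a ha (by norm_num) j; omega
      _ = 14 * L := by rw [sum_const, card_range, smul_eq_mul]; ring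
  have b2 : ∑ j ∈ range (2 * L), fanSize L a' j ≤ 14 * L := by
    calc ∑ j ∈ range (2 * L), fanSize L a' j ≤ ∑ j ∈ range (2 * L), 7 :=
          sum_le_sum fun j _ => by have := fanSize_lt a' ha' (by norm_num) j; omega
      _ = 14 * L := by rw [sum_const, card_range, smul_eq_mul]; ring
  have hM : 2 * L ≤ steps K L (fanSize L a) (fanSize L a') := by
    rw [steps]; omega
  refine ⟨hM, ?_⟩
  rw [Vtx.card_verts]
  have e1 : ∑ j ∈ range (steps K L (fanSize L a) (fanSize L a')), fanSize L a j =
      ∑ j ∈ range (2 * L), fanSize L a j := by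
    symm
    apply sum_subset (range_mono hM)
    intro x _ hx
    exact fanSize_zero a (by simpa using hx)
  have e2 : ∑ j ∈ range (steps K L (fanSize L a) (fanSize L a')), fanSize L a' j =
      ∑ j ∈ range (2 * L), fanSize L a' j := by
    symm
    apply sum_subset (range_mono hM)
    intro x _ hx
    exact fanSize_zero a' (by simpa using hx)
  rw [e1, e2, steps]
  omega

/-! ### The universal configuration -/

theorem exists_config (K : ℕ) : ∃ S : Finset (ℝ × ℝ), IsUniversal S K ∧ Separated S lab ∧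
    ∀ κ : ℤ, (S.filter fun q => lab q = κ).card ≤ K := by
  classical
  let ι : Type := Σ m : Fin (K + 1), {G : SimpleGraph (Fin m) // IsPlanar G}
  have : Finite ι := by
    have : ∀ m : Fin (K + 1), Finite {G : SimpleGraph (Fin m) // IsPlanar G} :=
      fun m => inferInstance
    exact inferInstanceAs (Finite (Σ m : Fin (K + 1), {G : SimpleGraph (Fin m) // IsPlanar G}))
  let _ : Fintype ι := Fintype.ofFinite ι
  choose f hf using fun c : ι => c.2.2
  obtain ⟨Φ, κ, hκ, hinj, hpres, hlab, hsep⟩ := exists_clusters fun c : ι => img (f c)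
  let S : Finset (ℝ × ℝ) := (univ : Finset ι).biUnion fun c => (img (f c)).image (Φ c)
  have hS : ∀ q ∈ S, ∃ c, ∃ p ∈ img (f c), Φ c p = q := by
    intro q hq
    rw [mem_biUnion] at hq
    obtain ⟨c, -, hq⟩ := hq
    exact ⟨c, mem_image.1 hq⟩
  refine ⟨S, ?_, hsep S hS, ?_⟩
  · intro m hm G hG
    let c : ι := ⟨⟨m, by omega⟩, ⟨G, hG⟩⟩
    refine ⟨fun v => Φ c (f c v), (hf c).map (hinj c) (hpres c), fun v => ?_⟩
    rw [mem_biUnion]
    exact ⟨c, mem_univ _, mem_image_of_mem _ (mem_img.2 ⟨v, rfl⟩)⟩
  · intro k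
    by_cases hk : ∃ c, κ c = k
    · obtain ⟨c, rfl⟩ := hk
      have hsub : (S.filter fun q => lab q = κ c) ⊆ (img (f c)).image (Φ c) := by
        intro q hq
        rw [mem_filter] at hq
        obtain ⟨c', p, hp, rfl⟩ := hS q hq.1
        have : κ c' = κ c := by rw [← hlab c' p hp]; exact hq.2
        have := hκ this
        subst this
        exact mem_image_of_mem _ hp
      calc _ ≤ _ := card_le_card hsub
        _ ≤ (img (f c)).card := card_image_le
        _ = Fintype.card (Fin c.1) := card_img (hf c).inj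
        _ ≤ K := by rw [Fintype.card_fin]; omega
    · have : (S.filter fun q => lab q = k) = ∅ := by
        rw [filter_eq_empty_iff]
        intro q hq he
        obtain ⟨c', p, hp, rfl⟩ := hS q hq
        exact hk ⟨c', by rw [← hlab c' p hp]; exact he⟩
      rw [this, card_empty]; exact Nat.zero_le _

theorem exists_minimal (S : Finset (ℝ × ℝ)) (K : ℕ) (hS : IsUniversal S K) :
    ∃ T, T ⊆ S ∧ IsObstacle K T := by
  classical
  obtain ⟨T, hT, hmin⟩ := exists_min_image (S.powerset.filter fun T => IsUniversal T K)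
    (fun T => T.card) ⟨S, by rw [mem_filter, mem_powerset]; exact ⟨subset_rfl, hS⟩⟩
  rw [mem_filter, mem_powerset] at hT
  refine ⟨T, hT.1, hT.2, fun T' hT' hU => ?_⟩
  have := hmin T' (by rw [mem_filter, mem_powerset]; exact ⟨hT'.1.trans hT.1, hU⟩)
  exact absurd (card_lt_card hT') (by omega)

/-! ### The counting argument -/

theorem Separated.mono {S T : Finset (ℝ × ℝ)} (h : Separated S lab) (hT : T ⊆ S) :
    Separated T lab :=
  fun x hx y hy z hz q hq => h x (hT hx) y (hT hy) z (hT hz) q (hT hq)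

/-- The code of a drawing. -/
theorem code_exists {T : Finset (ℝ × ℝ)} {K L : ℕ} (hL : 0 < L) (hK : 30 * L + 3 ≤ K)
    (hU : IsUniversal T K) (hsep : Separated T lab)
    (hsize : ∀ κ : ℤ, (T.filter fun q => lab q = κ).card ≤ K) (σ : Fin L → Fin 8 × Fin 8) :
    ∃ κ ∈ T.image lab, ∃ A ∈ small T 18, ∃ U ∈ small T 18,
      (((T.filter fun q => lab q = κ) \ U) ∪ A).card = K ∧
      List.ofFn (fun i => (((σ i).1 : ℕ), ((σ i).2 : ℕ))) ∈
        allWords (((T.filter fun q => lab q = κ) \ U) ∪ A) 8 L := by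
  classical
  set a : Fin L → ℕ := fun i => ((σ i).1 : ℕ) with ha
  set a' : Fin L → ℕ := fun i => ((σ i).2 : ℕ) with ha'
  have hlt : ∀ i, a i < 8 := fun i => (σ i).1.2
  have hlt' : ∀ i, a' i < 8 := fun i => (σ i).2.2
  set P := fanSize L a with hP
  set Q := fanSize L a' with hQ
  set M := steps K L P Q with hM
  obtain ⟨hM2, hcard⟩ : 2 * L ≤ M ∧ (Vtx.verts M P Q).card = K := card_family hK a a' hlt hlt'
  have hcV : Fintype.card (Vtx.verts M P Q) = K := by
    rw [Fintype.card_coe]; exact hcard
  obtain ⟨f, hf, hfT⟩ := hU.supports (Vtx.fgraph M P Q) hcV.le (Vtx.fgraph_planar M P Q)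
  let S := Vtx.chainSys M P Q
  have hM0 : 0 < M := by omega
  obtain ⟨κ, hκ⟩ := hf.exists_maj hfT hsep (S.zb 0 hM0.le) S.bc (S.zc 0 hM0.le) (S.zz 0 hM0).symm
    (S.zb 1 hM0) (S.zc 1 hM0)
  obtain ⟨p, hp⟩ := ChainSys.few_exceptions (S := S) hf hfT hsep hκ
  set X := img f with hX
  have hXT : X ⊆ T := by
    intro q hq
    obtain ⟨v, rfl⟩ := mem_img.1 hq
    exact hfT v
  have hXK : X.card = K := by rw [hX, card_img hf.inj, hcV]
  -- the exceptional points
  set A := X.filter (fun q => lab q ≠ κ) with hA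
  have hAcard : A.card ≤ 18 := by
    have hsub : A ⊆ ({f S.b, f S.c, f (S.z p), f (S.z (p + 1))} ∪
        (range (P p)).image (fun t => f (S.w p t))) ∪
        (range (Q p)).image (fun t => f (S.u p t)) := by
      intro q hq
      rw [hA, mem_filter] at hq
      obtain ⟨v, rfl⟩ := mem_img.1 hq.1
      rw [mem_union, mem_union]
      rcases hp v hq.2 with h | h | h | h | ⟨t, ht, -, h⟩ | ⟨t, ht, -, h⟩
      · left; left; rw [h]; simp
      · left; left; rw [h]; simp
      · left; left; rw [h]; simp
      · left; left; rw [h]; simp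
      · left; right; rw [h]; exact mem_image_of_mem _ (mem_range.2 ht)
      · right; rw [h]; exact mem_image_of_mem _ (mem_range.2 ht)
    have c1 : ({f S.b, f S.c, f (S.z p), f (S.z (p + 1))} : Finset (ℝ × ℝ)).card ≤ 4 :=
      card_le_four
    have c2 : ((range (P p)).image (fun t => f (S.w p t))).card ≤ 7 := by
      have : P p < 8 := fanSize_lt a hlt (by norm_num) p
      refine card_image_le.trans ?_
      rw [card_range]; omega
    have c3 : ((range (Q p)).image (fun t => f (S.u p t))).card ≤ 7 := by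
      have : Q p < 8 := fanSize_lt a' hlt' (by norm_num) p
      refine card_image_le.trans ?_
      rw [card_range]; omega
    have := card_le_card hsub
    have := card_union_le ({f S.b, f S.c, f (S.z p), f (S.z (p + 1))} ∪
        (range (P p)).image (fun t => f (S.w p t))) ((range (Q p)).image (fun t => f (S.u p t)))
    have := card_union_le ({f S.b, f S.c, f (S.z p), f (S.z (p + 1))} : Finset (ℝ × ℝ))
        ((range (P p)).image (fun t => f (S.w p t)))
    omega
  set C := T.filter (fun q => lab q = κ) with hC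
  set U := C \ X with hU'
  have hUcard : U.card ≤ 18 := by
    have h1 : (X.filter fun q => lab q = κ).card + A.card = K := by
      rw [hA, ← hXK]
      exact card_filter_add_card_filter_not _
    have h2 : X.filter (fun q => lab q = κ) ⊆ C ∩ X := by
      intro q hq
      rw [mem_filter] at hq
      rw [mem_inter, hC, mem_filter]
      exact ⟨⟨hXT hq.1, hq.2⟩, hq.1⟩
    have h3 := card_le_card h2
    have h4 : (C \ X).card + (C ∩ X).card = C.card := card_sdiff_add_card_inter C X
    have h5 : C.card ≤ K := hsize κ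
    rw [hU']
    omega
  have hXeq : (C \ U) ∪ A = X := by
    ext q
    rw [mem_union, mem_sdiff, hU', mem_sdiff, hC, mem_filter, hA, mem_filter]
    constructor
    · rintro (⟨⟨h1, h2⟩, h3⟩ | ⟨h1, h2⟩)
      · by_contra hcon
        exact h3 ⟨⟨h1, h2⟩, hcon⟩
      · exact h1
    · intro hq
      by_cases hl : lab q = κ
      · left
        exact ⟨⟨hXT hq, hl⟩, fun h => h.2 hq⟩
      · right
        exact ⟨hq, hl⟩
  have hκT : κ ∈ T.image lab := by
    rw [mem_image]
    rcases hκ with h | h | h
    · exact ⟨_, hfT _, h.1⟩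
    · exact ⟨_, hfT _, h.1⟩
    · exact ⟨_, hfT _, h.1⟩
  refine ⟨κ, hκT, A, ?_, U, ?_, ?_, ?_⟩
  · rw [small, mem_filter, mem_powerset]
    exact ⟨(filter_subset _ _).trans hXT, hAcard⟩
  · rw [small, mem_filter, mem_powerset]
    exact ⟨sdiff_subset.trans (filter_subset _ _), hUcard⟩
  · rw [hXeq, hXK]
  · rw [hXeq]
    exact ChainSys.word_mem S hf hL hM2 (fun i => (a i, a' i)) hlt hlt'
      (fun i => by rw [hP, hQ, fanSize_right, fanSize_right])
      (fun i => by rw [hP, hQ, fanSize_left, fanSize_left])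

theorem count {T : Finset (ℝ × ℝ)} {K L : ℕ} (hL : 0 < L) (hK : 30 * L + 3 ≤ K)
    (hU : IsUniversal T K) (hsep : Separated T lab)
    (hsize : ∀ κ : ℤ, (T.filter fun q => lab q = κ).card ≤ K) :
    2 ^ L ≤ (T.card + 1) ^ 37 * K ^ 3 := by
  classical
  let X : ℤ × Finset (ℝ × ℝ) × Finset (ℝ × ℝ) → Finset (ℝ × ℝ) := fun r =>
    ((T.filter fun q => lab q = r.1) \ r.2.2) ∪ r.2.1
  let W : ℤ × Finset (ℝ × ℝ) × Finset (ℝ × ℝ) → Finset (List (ℕ × ℕ)) := fun r =>
    if (X r).card = K then allWords (X r) 8 L else ∅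
  have hW : ∀ r, (W r).card ≤ K ^ 3 * 32 ^ L := by
    intro r
    by_cases h : (X r).card = K
    · simp only [W, if_pos h]
      have := card_allWords_le (X r) 8 L
      rw [h] at this
      exact this
    · simp only [W, if_neg h, card_empty]; exact Nat.zero_le _
  let word : (Fin L → Fin 8 × Fin 8) → List (ℕ × ℕ) := fun σ =>
    List.ofFn (fun i => (((σ i).1 : ℕ), ((σ i).2 : ℕ)))
  have hword : Function.Injective word := by
    intro σ σ' h
    have h' := List.ofFn_injective h
    funext i
    have := congrFun h' i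
    simp only [Prod.mk.injEq] at this
    exact Prod.ext (Fin.ext this.1) (Fin.ext this.2)
  have hsub : (univ : Finset (Fin L → Fin 8 × Fin 8)).image word ⊆
      ((T.image lab) ×ˢ (small T 18) ×ˢ (small T 18)).biUnion W := by
    intro l hl
    obtain ⟨σ, -, rfl⟩ := mem_image.1 hl
    obtain ⟨κ, hκ, A, hA, U, hU', hc, hw⟩ := code_exists hL hK hU hsep hsize σ
    rw [mem_biUnion]
    refine ⟨(κ, A, U), ?_, ?_⟩
    · rw [mem_product, mem_product]; exact ⟨hκ, hA, hU'⟩
    · simp only [W, X]
      rw [if_pos hc]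
      exact hw
  have h1 := card_le_card hsub
  rw [card_image_of_injective _ hword, card_univ, Fintype.card_fun, Fintype.card_prod,
    Fintype.card_fin, Fintype.card_fin] at h1
  have h2 : (((T.image lab) ×ˢ (small T 18) ×ˢ (small T 18)).biUnion W).card ≤
      (T.card + 1) ^ 37 * (K ^ 3 * 32 ^ L) := by
    calc _ ≤ ∑ r ∈ (T.image lab) ×ˢ (small T 18) ×ˢ (small T 18), (W r).card := card_biUnion_le
      _ ≤ ∑ r ∈ (T.image lab) ×ˢ (small T 18) ×ˢ (small T 18), K ^ 3 * 32 ^ L :=
          sum_le_sum fun r _ => hW r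
      _ = ((T.image lab).card * ((small T 18).card * (small T 18).card)) * (K ^ 3 * 32 ^ L) := by
          rw [sum_const, smul_eq_mul, card_product, card_product]
      _ ≤ ((T.card + 1) * ((T.card + 1) ^ 18 * (T.card + 1) ^ 18)) * (K ^ 3 * 32 ^ L) := by
          apply Nat.mul_le_mul_right
          apply Nat.mul_le_mul
          · exact card_image_le.trans (Nat.le_succ _)
          · exact Nat.mul_le_mul (card_small_le T 18) (card_small_le T 18)
      _ = (T.card + 1) ^ 37 * (K ^ 3 * 32 ^ L) := by ring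
  have h3 : 2 ^ L * 32 ^ L ≤ (T.card + 1) ^ 37 * K ^ 3 * 32 ^ L := by
    calc 2 ^ L * 32 ^ L = (8 * 8) ^ L := by rw [← mul_pow]; norm_num
      _ ≤ _ := h1
      _ ≤ _ := h2
      _ = _ := by ring
  exact Nat.le_of_mul_le_mul_right h3 (by positivity)

/-- There are obstacles of exponential size. -/
theorem exists_large {K L : ℕ} (hL : 0 < L) (hK : 30 * L + 3 ≤ K) :
    ∃ T, IsObstacle K T ∧ 2 ^ L ≤ (T.card + 1) ^ 37 * K ^ 3 := by
  classical
  obtain ⟨S, hS, hsep, hsize⟩ := exists_config K
  obtain ⟨T, hTS, hT⟩ := exists_minimal S K hS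
  refine ⟨T, hT, count hL hK hT.1 (hsep.mono hTS) fun κ => ?_⟩
  exact (card_le_card (filter_subset_filter _ hTS)).trans (hsize κ)

end Pool.Agent.H42.UP
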