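import Pool.Agent.H42.UP.Count

/-!
# Reading the word off a drawing of a chain of fans
-/

namespace Pool.Agent.H42.UP

theorem cnt_swap12 (X : Finset (ℝ × ℝ)) (x y z : ℝ × ℝ) : cnt X x y z = cnt X y x z := by
  classical
  unfold cnt
  congr 1
  apply Finset.filter_congr
  intro p _
  exact ⟨fun h => h.swap12, fun h => h.swap12⟩

open Classical in
/-- The set of points used by a drawing. -/
noncomputable def img {V : Type*} [Fintype V] (f : V → ℝ × ℝ) : Finset (ℝ × ℝ) :=
  Finset.univ.image f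

theorem mem_img {V : Type*} [Fintype V] {f : V → ℝ × ℝ} {p : ℝ × ℝ} :
    p ∈ img f ↔ ∃ v, f v = p := by
  classical
  simp [img]

theorem card_img {V : Type*} [Fintype V] {f : V → ℝ × ℝ} (h : Function.Injective f) :
    (img f).card = Fintype.card V := by
  classical
  rw [img, Finset.card_image_of_injective _ h, Finset.card_univ]

variable {V : Type*} {G : SimpleGraph V} {f : V → ℝ × ℝ} {M : ℕ} {P Q : ℕ → ℕ}

namespace ChainSys

variable {S : ChainSys G M P Q}

theorem cnt_b [Fintype V] (h : IsDrawing G f) {j : ℕ} (hj : j < M)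
    (hc : ¬ InTri (f (S.z j)) (f (S.z (j + 1))) (f S.b) (f S.c)) :
    cnt (img f) (f (S.z j)) (f (S.z (j + 1))) (f S.b) = P j := by
  classical
  have e : (img f).filter (InTri (f (S.z j)) (f (S.z (j + 1))) (f S.b)) =
      (Finset.range (P j)).image (fun t => f (S.w j t)) := by
    ext p
    simp only [Finset.mem_filter, mem_img, Finset.mem_image, Finset.mem_range]
    constructor
    · rintro ⟨⟨v, rfl⟩, hv⟩
      obtain ⟨t, ht, rfl⟩ := others_outside h hj hc hv
      exact ⟨t, ht, rfl⟩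
    · rintro ⟨t, ht, rfl⟩
      exact ⟨⟨_, rfl⟩, fan_inside' h hj hc t ht⟩
  have hdec : cnt (img f) (f (S.z j)) (f (S.z (j + 1))) (f S.b) =
      ((Finset.range (P j)).image (fun t => f (S.w j t))).card := by
    rw [← e]
    unfold cnt
    congr!
  rw [hdec, Finset.card_image_of_injOn, Finset.card_range]
  intro t ht t' ht' hee
  have ht : t < P j := by simpa using ht
  have ht' : t' < P j := by simpa using ht'
  by_contra hne
  exact S.ww_ne j hj t ht j hj t' ht' (by simpa using hne) (h.inj hee)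

theorem cnt_c [Fintype V] (h : IsDrawing G f) {j : ℕ} (hj : j < M)
    (hs : S.Up f j ∨ S.Down f j) :
    cnt (img f) (f (S.z j)) (f (S.z (j + 1))) (f S.c) = Q j := by
  have := c_outside (S := S.swap) h hj (by rw [up_swap, down_swap]; exact hs)
  exact cnt_b (S := S.swap) h hj this

/-- Decomposition of the triangle by the next vertex. -/
theorem split (h : IsDrawing G f) {x v : V} (hxb : G.Adj x S.b) (hxc : G.Adj x S.c)
    (hvb : G.Adj v S.b) (hvc : G.Adj v S.c) (hvx : G.Adj v x)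
    (hin : InTri (f x) (f S.b) (f S.c) (f v)) (y : V) (hy : InTri (f x) (f S.b) (f S.c) (f y)) :
    f y = f v ∨ InTri (f x) (f v) (f S.b) (f y) ∨ InTri (f x) (f v) (f S.c) (f y) ∨
      InTri (f v) (f S.b) (f S.c) (f y) := by
  by_cases hyv : y = v
  · left; rw [hyv]
  · right
    have hdet := h.det_ne hxb S.bc hxc
    have n1 : y ≠ x := by
      rintro rfl; exact InTri.not_corner hdet hy
    have n2 : y ≠ S.b := by
      rintro rfl
      exact InTri.not_corner (h.det_ne hxb.symm hxc S.bc) hy.swap12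
    have n3 : y ≠ S.c := by
      rintro rfl
      exact InTri.not_corner (h.det_ne hxc.symm hxb S.bc.symm) hy.rot'
    rcases hin.subdiv hy (h.vertex_off v x y hvx hyv n1) (h.vertex_off v S.b y hvb hyv n2)
      (h.vertex_off v S.c y hvc hyv n3) with s | s | s
    · exact Or.inr (Or.inr s)
    · exact Or.inr (Or.inl s)
    · exact Or.inl s.swap23

theorem step_down [Fintype V] (h : IsDrawing G f) {j s : ℕ} (hj : j < M)
    (hd : S.Down f j) (hP : P j < s) (hQ : Q j < s) :
    f (S.z (j + 1)) ∈ cand (img f) s (f S.b) (f S.c) (f (S.z j)) ∧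
      cnt (img f) (f (S.z j)) (f (S.z (j + 1))) (f S.b) = P j ∧
      cnt (img f) (f (S.z j)) (f (S.z (j + 1))) (f S.c) = Q j := by
  classical
  have c1 := cnt_b h hj (c_outside h hj (Or.inr hd))
  have c2 := cnt_c h hj (Or.inr hd)
  refine ⟨?_, c1, c2⟩
  rw [cand, Finset.mem_filter]
  refine ⟨mem_img.2 ⟨_, rfl⟩, h.det_ne (S.zb j hj.le) S.bc
    (S.zc j hj.le), hd, ?_, by rw [c1]; exact hP, by rw [c2]; exact hQ⟩
  intro v' hv' hin
  obtain ⟨y, rfl⟩ := mem_img.1 hv'
  exact split h (S.zb j hj.le) (S.zc j hj.le) (S.zb (j + 1) hj) (S.zc (j + 1) hj)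
    (S.zz j hj).symm hd y hin

theorem step_up [Fintype V] (h : IsDrawing G f) {j s : ℕ} (hj : j < M)
    (hd : S.Up f j) (hP : P j < s) (hQ : Q j < s) :
    f (S.z j) ∈ cand (img f) s (f S.b) (f S.c) (f (S.z (j + 1))) ∧
      cnt (img f) (f (S.z (j + 1))) (f (S.z j)) (f S.b) = P j ∧
      cnt (img f) (f (S.z (j + 1))) (f (S.z j)) (f S.c) = Q j := by
  classical
  have c1 := cnt_b h hj (c_outside h hj (Or.inl hd))
  have c2 := cnt_c h hj (Or.inl hd)
  rw [cnt_swap12] at c1 c2
  refine ⟨?_, c1, c2⟩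
  rw [cand, Finset.mem_filter]
  refine ⟨mem_img.2 ⟨_, rfl⟩, h.det_ne (S.zb (j + 1) hj) S.bc
    (S.zc (j + 1) hj), hd, ?_, by rw [c1]; exact hP, by rw [c2]; exact hQ⟩
  intro v' hv' hin
  obtain ⟨y, rfl⟩ := mem_img.1 hv'
  exact split h (S.zb (j + 1) hj) (S.zc (j + 1) hj) (S.zb j hj.le) (S.zc j hj.le)
    (S.zz j hj) hd y hin

theorem up_of_up (h : IsDrawing G f) {p : ℕ} (hp : p < M) (hup : S.Up f p) :
    ∀ j ≤ p, S.Up f j := by
  induction p with
  | zero =>
    intro j hj
    obtain rfl : j = 0 := by omega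
    exact hup
  | succ p ih =>
    intro j hj
    rcases Nat.lt_or_ge j (p + 1) with h1 | h1
    · refine ih (by omega) ?_ j (by omega)
      exact (up_or_down h hp).resolve_right fun h2 => not_up_down h hp hup h2
    · obtain rfl : j = p + 1 := by omega
      exact hup

/-- The word of a symmetric chain of fans can be read off the point set of any of its drawings. -/
theorem word_mem [Fintype V] (S : ChainSys G M P Q) (h : IsDrawing G f) {L s : ℕ} (hL : 0 < L)
    (hM : 2 * L ≤ M) (σ : Fin L → ℕ × ℕ) (h1 : ∀ i, (σ i).1 < s) (h2 : ∀ i, (σ i).2 < s)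
    (hR : ∀ i : Fin L, σ i = (P (L + i), Q (L + i)))
    (hl : ∀ i : Fin L, σ i = (P (L - 1 - i), Q (L - 1 - i))) :
    List.ofFn σ ∈ allWords (img f) s L := by
  classical
  have hmem : ∀ v, f v ∈ img f := fun v => mem_img.2 ⟨_, rfl⟩
  by_cases hup : S.Up f (L - 1)
  · have hall := up_of_up h (by omega) hup
    have hstep : ∀ i : Fin L,
        f (S.z (L - (i + 1))) ∈ cand (img f) s (f S.b) (f S.c) (f (S.z (L - i))) ∧
        cnt (img f) (f (S.z (L - i))) (f (S.z (L - (i + 1)))) (f S.b) = (σ i).1 ∧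
        cnt (img f) (f (S.z (L - i))) (f (S.z (L - (i + 1)))) (f S.c) =
          (σ i).2 := by
      intro i
      have hi := i.2
      have e1 : L - (i : ℕ) = (L - 1 - i) + 1 := by omega
      have e2 : L - ((i : ℕ) + 1) = L - 1 - i := by omega
      rw [e1, e2]
      have hP : P (L - 1 - i) < s := by have := h1 i; rw [hl i] at this; exact this
      have hQ : Q (L - 1 - i) < s := by have := h2 i; rw [hl i] at this; exact this
      have := step_up (S := S) h (j := L - 1 - i) (s := s) (by omega) (hall _ (by omega)) hP hQ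
      rw [hl i]
      exact this
    have := mem_allWords (X := img f) (s := s) (L := L) (hmem S.b) (hmem S.c)
      (fun i => f (S.z (L - i))) (hmem _) (fun i hi => (hstep ⟨i, hi⟩).1)
    convert this using 2
    funext i
    exact Prod.ext (hstep i).2.1.symm (hstep i).2.2.symm
  · have hall := down_of_not_up h hup
    have hstep : ∀ i : Fin L,
        f (S.z (L + (i + 1))) ∈ cand (img f) s (f S.b) (f S.c) (f (S.z (L + i))) ∧
        cnt (img f) (f (S.z (L + i))) (f (S.z (L + (i + 1)))) (f S.b) = (σ i).1 ∧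
        cnt (img f) (f (S.z (L + i))) (f (S.z (L + (i + 1)))) (f S.c) =
          (σ i).2 := by
      intro i
      have hi := i.2
      have hP : P (L + i) < s := by have := h1 i; rw [hR i] at this; exact this
      have hQ : Q (L + i) < s := by have := h2 i; rw [hR i] at this; exact this
      have := step_down (S := S) h (j := L + i) (s := s) (by omega)
        (hall _ (by omega) (by omega)) hP hQ
      rw [hR i]
      exact this
    have := mem_allWords (X := img f) (s := s) (L := L) (hmem S.b) (hmem S.c)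
      (fun i => f (S.z (L + i))) (hmem _) (fun i hi => (hstep ⟨i, hi⟩).1)
    convert this using 2
    funext i
    exact Prod.ext (hstep i).2.1.symm (hstep i).2.2.symm

end ChainSys

/-! ### Labels -/

/-- At least two of the three points carry the label `κ`. -/
def Maj {ι : Type*} (lab : ℝ × ℝ → ι) (κ : ι) (x y z : ℝ × ℝ) : Prop :=
  (lab x = κ ∧ lab y = κ) ∨ (lab x = κ ∧ lab z = κ) ∨ (lab y = κ ∧ lab z = κ)

/-- The separation property of a labelled configuration: a point of the configuration strictly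
inside a triangle spanned by the configuration has the label of at least two of the corners. -/
def Separated {ι : Type*} (T : Finset (ℝ × ℝ)) (lab : ℝ × ℝ → ι) : Prop :=
  ∀ x ∈ T, ∀ y ∈ T, ∀ z ∈ T, ∀ q ∈ T, q ≠ x → q ≠ y → q ≠ z → InTri x y z q →
    Maj lab (lab q) x y z

section labels

variable {ι : Type*} {T : Finset (ℝ × ℝ)} {lab : ℝ × ℝ → ι} {κ : ι} {x y z q : ℝ × ℝ}

theorem Maj.swap12 (h : Maj lab κ x y z) : Maj lab κ y x z := by
  unfold Maj at *; tauto

theorem Maj.swap23 (h : Maj lab κ x y z) : Maj lab κ x z y := by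
  unfold Maj at *; tauto

theorem Maj.eq {κ' : ι} (h : Maj lab κ x y z) (h' : Maj lab κ' x y z) : κ = κ' := by
  unfold Maj at *
  rcases h with ⟨a, b⟩ | ⟨a, b⟩ | ⟨a, b⟩ <;> rcases h' with ⟨c, d⟩ | ⟨c, d⟩ | ⟨c, d⟩ <;>
    simp_all

end labels

variable {ι : Type*} {T : Finset (ℝ × ℝ)} {lab : ℝ × ℝ → ι} {κ : ι}

/-- The label of an inside vertex is the majority label. -/
theorem IsDrawing.lab_inside (h : IsDrawing G f) (hT : ∀ v, f v ∈ T) (hsep : Separated T lab)
    {x y z q : V} (hx : q ≠ x) (hy : q ≠ y) (hz : q ≠ z)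
    (hin : InTri (f x) (f y) (f z) (f q)) (hm : Maj lab κ (f x) (f y) (f z)) : lab (f q) = κ :=
  (hsep _ (hT x) _ (hT y) _ (hT z) _ (hT q) (h.inj.ne hx) (h.inj.ne hy) (h.inj.ne hz) hin).eq hm

/-- In a complete graph on four vertices a majority label propagates. -/
theorem IsDrawing.maj_four (h : IsDrawing G f) (hT : ∀ v, f v ∈ T) (hsep : Separated T lab)
    {x y z q : V} (hxy : G.Adj x y) (hyz : G.Adj y z) (hxz : G.Adj x z) (hqx : G.Adj q x)
    (hqy : G.Adj q y) (hqz : G.Adj q z) (hm : Maj lab κ (f x) (f y) (f z)) :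
    Maj lab κ (f q) (f y) (f z) ∧ Maj lab κ (f x) (f q) (f z) ∧ Maj lab κ (f x) (f y) (f q) := by
  have hs : ∀ {x y z q : V}, q ≠ x → q ≠ y → q ≠ z → InTri (f x) (f y) (f z) (f q) →
      Maj lab (lab (f q)) (f x) (f y) (f z) := fun hx hy hz hin =>
    hsep _ (hT _) _ (hT _) _ (hT _) _ (hT _) (h.inj.ne hx) (h.inj.ne hy) (h.inj.ne hz) hin
  rcases h.four hqx hqy hqz hxy hxz hyz with h1 | h1 | h1 | h1
  · have hq := hs hqx.ne hqy.ne hqz.ne h1
    have := hq.eq hm
    rw [this] at hq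
    unfold Maj at *
    tauto
  · have hq := hs hqx.symm.ne hxy.ne hxz.ne h1
    unfold Maj at *
    rcases hm with ⟨a, b⟩ | ⟨a, b⟩ | ⟨a, b⟩ <;> rcases hq with ⟨c, d⟩ | ⟨c, d⟩ | ⟨c, d⟩ <;>
      simp_all
  · have hq := hs hqy.symm.ne hxy.symm.ne hyz.ne h1
    unfold Maj at *
    rcases hm with ⟨a, b⟩ | ⟨a, b⟩ | ⟨a, b⟩ <;> rcases hq with ⟨c, d⟩ | ⟨c, d⟩ | ⟨c, d⟩ <;>
      simp_all
  · have hq := hs hqz.symm.ne hxz.symm.ne hyz.symm.ne h1
    unfold Maj at *
    rcases hm with ⟨a, b⟩ | ⟨a, b⟩ | ⟨a, b⟩ <;> rcases hq with ⟨c, d⟩ | ⟨c, d⟩ | ⟨c, d⟩ <;>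
      simp_all

/-- Some label is in the majority on a triangle that has a fourth common neighbour. -/
theorem IsDrawing.exists_maj (h : IsDrawing G f) (hT : ∀ v, f v ∈ T) (hsep : Separated T lab)
    {x y z q : V} (hxy : G.Adj x y) (hyz : G.Adj y z) (hxz : G.Adj x z) (hqx : G.Adj q x)
    (hqy : G.Adj q y) (hqz : G.Adj q z) : ∃ κ, Maj lab κ (f x) (f y) (f z) := by
  have hs : ∀ {x y z q : V}, q ≠ x → q ≠ y → q ≠ z → InTri (f x) (f y) (f z) (f q) →
      Maj lab (lab (f q)) (f x) (f y) (f z) := fun hx hy hz hin =>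
    hsep _ (hT _) _ (hT _) _ (hT _) _ (hT _) (h.inj.ne hx) (h.inj.ne hy) (h.inj.ne hz) hin
  rcases h.four hqx hqy hqz hxy hxz hyz with h1 | h1 | h1 | h1
  · exact ⟨_, hs hqx.ne hqy.ne hqz.ne h1⟩
  · have hq := hs hqx.symm.ne hxy.ne hxz.ne h1
    exact ⟨lab (f x), (h.maj_four hT hsep hqy hyz hqz hqx.symm hxy hxz hq).1⟩
  · have hq := hs hqy.symm.ne hxy.symm.ne hyz.ne h1
    exact ⟨lab (f y), (h.maj_four hT hsep hqx hxz hqz hqy.symm hxy.symm hyz hq).1.swap12⟩
  · have hq := hs hqz.symm.ne hxz.symm.ne hyz.symm.ne h1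
    exact ⟨lab (f z), (h.maj_four hT hsep hqx hxy hqy hqz.symm hxz.symm hyz.symm
      hq).1.swap12.swap23⟩

namespace ChainSys

variable {S : ChainSys G M P Q}

theorem maj_z (h : IsDrawing G f) (hT : ∀ v, f v ∈ T) (hsep : Separated T lab)
    (h0 : Maj lab κ (f (S.z 0)) (f S.b) (f S.c)) :
    ∀ j ≤ M, Maj lab κ (f (S.z j)) (f S.b) (f S.c) := by
  intro j
  induction j with
  | zero => intro _; exact h0
  | succ j ih =>
    intro hj
    exact (h.maj_four hT hsep (S.zb j (by omega)) S.bc (S.zc j (by omega)) (S.zz j hj).symm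
      (S.zb (j + 1) hj) (S.zc (j + 1) hj) (ih (by omega))).1

theorem maj_b (h : IsDrawing G f) (hT : ∀ v, f v ∈ T) (hsep : Separated T lab)
    (h0 : Maj lab κ (f (S.z 0)) (f S.b) (f S.c)) {j : ℕ} (hj : j < M) :
    Maj lab κ (f (S.z j)) (f (S.z (j + 1))) (f S.b) :=
  (h.maj_four hT hsep (S.zb j hj.le) S.bc (S.zc j hj.le) (S.zz j hj).symm
      (S.zb (j + 1) hj) (S.zc (j + 1) hj) (maj_z h hT hsep h0 j hj.le)).2.2.swap23

theorem maj_pred (h : IsDrawing G f) (hT : ∀ v, f v ∈ T) (hsep : Separated T lab)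
    (h0 : Maj lab κ (f (S.z 0)) (f S.b) (f S.c)) {j : ℕ} (hj : j < M) :
    ∀ t < P j, Maj lab κ (f (S.pred j t)) (f (S.z (j + 1))) (f S.b) := by
  intro t
  induction t with
  | zero => intro _; exact maj_b h hT hsep h0 hj
  | succ t ih =>
    intro ht
    have ht' : t < P j := by omega
    exact (h.maj_four hT hsep (pred_z hj ht') (S.zb (j + 1) hj) (pred_b hj ht') (pred_w hj ht')
      (S.wz j hj t ht') (S.wb j hj t ht') (ih ht')).1

theorem lab_w (h : IsDrawing G f) (hT : ∀ v, f v ∈ T) (hsep : Separated T lab)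
    (h0 : Maj lab κ (f (S.z 0)) (f S.b) (f S.c)) {j : ℕ} (hj : j < M)
    (hs : S.Up f j ∨ S.Down f j) {t : ℕ} (ht : t < P j) : lab (f (S.w j t)) = κ :=
  h.lab_inside hT hsep (pred_w hj ht).ne (S.wz j hj t ht).ne (S.wb j hj t ht).ne
    (fan_inside h hj (c_outside h hj hs) t ht) (maj_pred h hT hsep h0 hj t ht)

/-- All but a few vertices carry the majority label. -/
theorem few_exceptions (h : IsDrawing G f) (hT : ∀ v, f v ∈ T) (hsep : Separated T lab)
    (h0 : Maj lab κ (f (S.z 0)) (f S.b) (f S.c)) : ∃ p, ∀ v, lab (f v) ≠ κ →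
      v = S.b ∨ v = S.c ∨ v = S.z p ∨ v = S.z (p + 1) ∨ (∃ t < P p, p < M ∧ v = S.w p t) ∨
      (∃ t < Q p, p < M ∧ v = S.u p t) := by
  classical
  -- the least step that is not nested upwards
  obtain ⟨p, hpM, hlow, hhigh⟩ : ∃ p, (0 < p → p < M) ∧ (∀ j < p, S.Up f j) ∧
      (∀ j, p < j → j < M → S.Down f j) := by
    by_cases hex : ∃ p, p < M ∧ ¬ S.Up f p
    · have hsp := Nat.find_spec hex
      refine ⟨Nat.find hex, fun _ => hsp.1, fun j hj => ?_, fun j h1 h2 =>
        down_of_not_up h hsp.2 j h1 h2⟩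
      by_contra hcon
      exact Nat.find_min hex hj ⟨by omega, hcon⟩
    · push Not at hex
      exact ⟨M - 1, fun _ => by omega, fun j hj => hex j (by omega), fun j _ _ => by omega⟩
  have hnest : ∀ j < M, j ≠ p → S.Up f j ∨ S.Down f j := by
    intro j hj hne
    rcases Nat.lt_or_ge j p with h1 | h1
    · exact Or.inl (hlow j h1)
    · exact Or.inr (hhigh j (by omega) hj)
  have h0' : Maj lab κ (f (S.swap.z 0)) (f S.swap.b) (f S.swap.c) := h0.swap23
  refine ⟨p, fun v hv => ?_⟩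
  rcases S.cover v with rfl | rfl | ⟨i, hi, rfl⟩ | ⟨i, hi, t, ht, rfl⟩ | ⟨i, hi, t, ht, rfl⟩
  · exact Or.inl rfl
  · exact Or.inr (Or.inl rfl)
  · by_cases h1 : i = p
    · subst h1; exact Or.inr (Or.inr (Or.inl rfl))
    by_cases h2 : i = p + 1
    · subst h2; exact Or.inr (Or.inr (Or.inr (Or.inl rfl)))
    exfalso
    apply hv
    rcases Nat.lt_or_ge i p with h3 | h3
    · have h4 : i < M := by have := hpM (by omega); omega
      exact h.lab_inside hT hsep (S.zz i h4).ne (S.zb i hi).ne (S.zc i hi).ne (hlow i h3)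
        (maj_z h hT hsep h0 (i + 1) h4)
    · obtain ⟨k, rfl⟩ : ∃ k, i = k + 1 := ⟨i - 1, by omega⟩
      exact h.lab_inside hT hsep (S.zz k (by omega)).symm.ne (S.zb (k + 1) hi).ne
        (S.zc (k + 1) hi).ne (hhigh k (by omega) (by omega)) (maj_z h hT hsep h0 k (by omega))
  · by_cases h1 : i = p
    · subst h1; exact Or.inr (Or.inr (Or.inr (Or.inr (Or.inl ⟨t, ht, hi, rfl⟩))))
    · exact absurd (lab_w h hT hsep h0 hi (hnest i hi h1) ht) hv
  · by_cases h1 : i = p
    · subst h1; exact Or.inr (Or.inr (Or.inr (Or.inr (Or.inr ⟨t, ht, hi, rfl⟩))))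
    · have hs := hnest i hi h1
      rw [← up_swap, ← down_swap] at hs
      exact absurd (lab_w (S := S.swap) h hT hsep h0' hi hs ht) hv

end ChainSys

end Pool.Agent.H42.UP
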